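import Pool.Agent.Work.MP_46fa68_99.Comb
import Pool.Agent.Work.MP_46fa68_h4.RowOne

/-!
# MP_46fa68_co: row 1 in the form of the combination
-/

set_option autoImplicit false

open Finset

namespace Pool.JM

/-- **ROW1** from helper4's `row_one` -/
theorem ROW1_all {m : ℕ} (hm : 20 ≤ m) : Stmt_ROW1 m := by
  refine ⟨m, fun A hA M hM B hB hw => ?_⟩
  have hBl : Bl m (M + 1) B := by
    intro x hx
    have := le_tb hx
    omega
  have h := row_one hm hA (by omega) hB hBl
  refine ⟨fun h1 => ?_, fun h1 => ?_, fun h1 => ?_, fun h1 => ?_⟩
  · rcases h with h | h | h | h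
    · exact h.2
    · omega
    · omega
    · omega
  · rcases h with h | h | h | h
    · omega
    · exact h.2.2
    · omega
    · omega
  · rcases h with h | h | h | h
    · omega
    · omega
    · exact h.2
    · omega
  · rcases h with h | h | h | h
    · omega
    · omega
    · omega
    · linarith [h.2]

end Pool.JM
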