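import Pool.Agent.Work.MP_46fa68_99.Far8
import Pool.Agent.Work.MP_46fa68_56.VHW

/-!
# MP_46fa68_co: the combination: `U0` and `BD` from row 1, row 2 near, and the far rows (`m ≥ 21`)
-/

set_option autoImplicit false

open Finset

namespace Pool.JM

/-- the second bead -/
def sb (B : Finset ℕ) : ℕ := tb (B.erase (tb B))

/-- **ROW1** (helper4) -/
def Stmt_ROW1 (m : ℕ) : Prop := ∃ A₀ : ℕ, ∀ A, A₀ ≤ A → ∀ M, M = A + (m - 3) + m →
  ∀ B ∈ Lv (M + 1) (m + (m - 3)), tb B < M + m →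
  (M + m = tb B + 1 → 3 / 2 ≤ 1 - Cr m A (M + m) B (tb B)) ∧
  (M + m = tb B + 2 → cm m + (1 - cm m) * (((sb B + 1 - M : ℕ) : ℝ) /
    (m * ((m : ℝ) - 1 - ((sb B + 1 - M : ℕ) : ℝ)))) ≤ 1 - Cr m A (M + m) B (tb B)) ∧
  (M + m = tb B + 3 → 7 / 10 ≤ 1 - Cr m A (M + m) B (tb B)) ∧
  (tb B + 4 ≤ M + m → 1 / 2 ≤ 1 - Cr m A (M + m) B (tb B))

/-- **NEARU** (helper5, helper81, helper62): row 2 near, below the wall -/
def Stmt_NEARU (m : ℕ) : Prop := ∃ A₀ : ℕ, ∀ A, A₀ ≤ A → ∀ M, M = A + (m - 3) + m →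
  ∀ B ∈ Lv (M + 1) (m + (m - 3)), tb B < M + m → 3 * (M + m - sb B) ≤ m + 6 →
  (M + m = tb B + 1 → Cr m A (M + m) B (sb B) ≤ 3 / 4) ∧
  (M + m = tb B + 2 → M + m = sb B + 3 → Cr m A (M + m) B (sb B) ≤ 3 / 20) ∧
  (M + m = tb B + 2 → M + m = sb B + 4 →
    29 / 100 ≤ 1 - Cr m A (M + m) B (tb B) - Cr m A (M + m) B (sb B)) ∧
  (M + m = tb B + 2 → ∀ i : ℕ, 5 ≤ i → M + m = sb B + i →
    Cr m A (M + m) B (sb B) ≤ 1 / (4 * ((i : ℝ) - 2))) ∧
  (M + m = tb B + 3 → Cr m A (M + m) B (sb B) ≤ 39 / 100) ∧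
  (tb B + 4 ≤ M + m → Cr m A (M + m) B (sb B) ≤ 3 / 25)

/-- **NEARB** (helper5, helper62): row 2 near, beyond the wall -/
def Stmt_NEARB (m : ℕ) : Prop := ∃ A₀ : ℕ, ∀ A, A₀ ≤ A → ∀ M, M = A + (m - 3) + m →
  ∀ B ∈ Lv (M + 1) (m + (m - 3)), M + m ≤ tb B → 3 * (M + m - sb B) ≤ m + 6 →
  (M + m = sb B + 4 → |Cr m A (M + m) B (sb B)| ≤ 139 / 1000) ∧
  (M + m = sb B + 5 → |Cr m A (M + m) B (sb B)| ≤ 44 / 1000) ∧
  (∀ i : ℕ, 6 ≤ i → M + m = sb B + i → |Cr m A (M + m) B (sb B)| ≤ 1 / 20 * (3 / 4) ^ (i - 4))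

section two

variable {m M : ℕ} {B : Finset ℕ}

theorem sb_mem (hB : B ∈ Lv (M + 1) (m + (m - 3))) (hM : 1 ≤ M) : sb B ∈ B.erase (tb B) := by
  have h1 := (Lv_spec hB).1
  have h2 : B.Nonempty := card_pos.1 (by omega)
  refine tb_mem ?_
  rw [← card_pos, card_erase_of_mem (tb_mem h2)]
  omega

theorem le_sb {x : ℕ} (hx : x ∈ B.erase (tb B)) : x ≤ sb B := le_tb hx

/-- the second bead: row 2 -/
theorem sb_row (hB : B ∈ Lv (M + 1) (m + (m - 3))) (hM : 1 ≤ M) :
    sb B < tb B ∧ tb B = M + ln B (tb B) ∧ sb B + 1 = M + ln B (sb B) ∧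
      bx B (sb B) + ln B (sb B) + ln B (tb B) = m + (m - 3) := by
  have h1 := sb_mem hB hM
  have h2 := mem_of_mem_erase h1
  have h3 : sb B < tb B := lt_of_le_of_ne (le_tb h2) (ne_of_mem_erase h1)
  have h4 := second_row hB (tb_mem ⟨_, h2⟩) h2 h3 fun z hz hne => le_sb (mem_erase.2 ⟨hne, hz⟩)
  have h5 := top_pos hB h1
  exact ⟨h3, h5, by omega, h4.2⟩

theorem rest_upr (hB : B ∈ Lv (M + 1) (m + (m - 3))) (hM : 1 ≤ M) {x : ℕ}
    (hx : x ∈ (B.erase (tb B)).erase (sb B)) : 2 ≤ upr B x := by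
  have h1 := sb_mem hB hM
  have h2 := mem_of_mem_erase h1
  have h3 : sb B < tb B := lt_of_le_of_ne (le_tb h2) (ne_of_mem_erase h1)
  have h4 := mem_of_mem_erase hx
  have h5 : x < sb B := lt_of_le_of_ne (le_sb h4) (ne_of_mem_erase hx)
  exact two_above (tb_mem ⟨_, h2⟩) h2 h3 h5

theorem far_of_not_near (hn : ¬ 3 * (M + m - sb B) ≤ m + 6) {x : ℕ} (hx : x ∈ B.erase (tb B)) :
    FarR m M B x := by
  have := le_sb hx
  left
  omega

end two

/-- the value of `VhB` in layer 2, `i ≥ 5` -/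
theorem VhB_layer2 {m M i : ℕ} {B : Finset ℕ} (hm : 21 ≤ m) (hi : 5 ≤ i) (him : i ≤ m + 1)
    (h1 : M + m = tb B + 2) (h2 : sb B + 1 = M + (m + 1 - i)) :
    LR.VhB m M B = 8 / 15 * (((m : ℝ) - 1) / (m * ((i : ℝ) - 2))) := by
  unfold LR.VhB LR.Vh'
  have e1 : tb B - M = m - 2 := by omega
  have e2 : tb (B.erase (tb B)) + 1 - M = m + 1 - i := by
    show sb B + 1 - M = m + 1 - i
    omega
  rw [e1, e2, if_neg (by omega), if_pos (by omega), if_neg (by omega), if_neg (by omega)]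
  have e3 : ((m + 1 - i : ℕ) : ℝ) = (m : ℝ) + 1 - i := by
    rw [Nat.cast_sub him]
    push_cast
    ring
  rw [e3, show (m : ℝ) - 1 - ((m : ℝ) + 1 - i) = (i : ℝ) - 2 by ring]
  ring

/-- the arithmetic of layer 2, `i ≥ 5` -/
theorem layer2_arith {m i : ℕ} (hm : 21 ≤ m) (hi : 5 ≤ i) (him : i ≤ m + 1) {c r w : ℝ}
    (hc : 1 / (m : ℝ) ≤ c) (hc1 : c ≤ 1)
    (hw : (3 * i ≤ m + 6 ∧ w ≤ 1 / (4 * ((i : ℝ) - 2)) + 1 / (30 * m)) ∨ w ≤ 1 / (30 * m))
    (hr : c + (1 - c) * (((m : ℝ) + 1 - i) / (m * ((i : ℝ) - 2))) ≤ r) :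
    8 / 15 * (((m : ℝ) - 1) / (m * ((i : ℝ) - 2))) + 1 / (12 * m) ≤ r - w := by
  have hm' : (21 : ℝ) ≤ m := by exact_mod_cast hm
  have hi' : (5 : ℝ) ≤ i := by exact_mod_cast hi
  have him' : (i : ℝ) ≤ m + 1 := by exact_mod_cast him
  have hm0 : (0 : ℝ) < m := by linarith
  have hp : (0 : ℝ) < (i : ℝ) - 2 := by linarith
  have hmp : 0 < (m : ℝ) * ((i : ℝ) - 2) := mul_pos hm0 hp
  -- the value at `c = 1/m`
  have hx1 : ((m : ℝ) + 1 - i) / (m * ((i : ℝ) - 2)) ≤ 1 := by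
    rw [div_le_one hmp]
    nlinarith
  have hx0 : 0 ≤ ((m : ℝ) + 1 - i) / (m * ((i : ℝ) - 2)) := div_nonneg (by linarith) hmp.le
  have h1 : 1 / (m : ℝ) + (1 - 1 / (m : ℝ)) * (((m : ℝ) + 1 - i) / (m * ((i : ℝ) - 2))) ≤ r := by
    refine le_trans ?_ hr
    nlinarith
  have h2 : (((i : ℝ) - 2) + (((m : ℝ) + 1 - i) - 1)) / (m * ((i : ℝ) - 2)) ≤
      1 / (m : ℝ) + (1 - 1 / (m : ℝ)) * (((m : ℝ) + 1 - i) / (m * ((i : ℝ) - 2))) := by
    have e : 1 / (m : ℝ) + (1 - 1 / (m : ℝ)) * (((m : ℝ) + 1 - i) / (m * ((i : ℝ) - 2))) =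
        (((i : ℝ) - 2) + (((m : ℝ) + 1 - i) - ((m : ℝ) + 1 - i) / m)) / (m * ((i : ℝ) - 2)) := by
      field_simp
    rw [e]
    refine div_le_div_of_nonneg_right ?_ hmp.le
    have : ((m : ℝ) + 1 - i) / m ≤ 1 := by
      rw [div_le_one hm0]
      linarith
    linarith
  have h3 : (((i : ℝ) - 2) + (((m : ℝ) + 1 - i) - 1)) / (m * ((i : ℝ) - 2)) ≤ r := h2.trans h1
  have e30 : 1 / (30 * (m : ℝ)) = (((i : ℝ) - 2) / 30) / (m * ((i : ℝ) - 2)) := by
    field_simp
  have e12 : 1 / (12 * (m : ℝ)) = (((i : ℝ) - 2) / 12) / (m * ((i : ℝ) - 2)) := by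
    field_simp
  have e4 : 1 / (4 * ((i : ℝ) - 2)) = ((m : ℝ) / 4) / (m * ((i : ℝ) - 2)) := by
    field_simp
  have e8 : 8 / 15 * (((m : ℝ) - 1) / (m * ((i : ℝ) - 2))) =
      (8 / 15 * ((m : ℝ) - 1)) / (m * ((i : ℝ) - 2)) := by ring
  have key : (8 / 15 * ((m : ℝ) - 1)) / (m * ((i : ℝ) - 2)) +
      (((i : ℝ) - 2) / 12) / (m * ((i : ℝ) - 2)) + w ≤
      (((i : ℝ) - 2) + (((m : ℝ) + 1 - i) - 1)) / (m * ((i : ℝ) - 2)) := by
    rcases hw with ⟨hn, hw⟩ | hw
    · have hn' : 3 * (i : ℝ) ≤ m + 6 := by exact_mod_cast hn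
      rw [e30, e4] at hw
      refine (add_le_add_right hw _).trans ?_
      rw [← add_div, ← add_div, ← add_div]
      refine div_le_div_of_nonneg_right ?_ hmp.le
      linarith
    · rw [e30] at hw
      refine (add_le_add_right hw _).trans ?_
      rw [← add_div, ← add_div]
      refine div_le_div_of_nonneg_right ?_ hmp.le
      linarith
  rw [e8, e12]
  linarith

theorem cm_le_one' {m : ℕ} (hm : 21 ≤ m) : cm m ≤ 1 := by
  have hm' : (21 : ℝ) ≤ m := by exact_mod_cast hm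
  have hc2 := cm_le (m := m) (by omega)
  refine hc2.trans ?_
  rw [div_le_one (by linarith)]
  linarith

theorem arith_lay1 {c S : ℝ} (h1 : 3 / 2 ≤ c) (h2 : S ≤ 3 / 4 + 1 / 630) {e : ℝ}
    (he : e ≤ 1 / 252) : 12 / 11 * (3 / 5) + e ≤ c - S := by linarith

theorem arith_lay3 {c S : ℝ} (h1 : 7 / 10 ≤ c) (h2 : S ≤ 39 / 100 + 1 / 630) {e : ℝ}
    (he : e ≤ 1 / 252) : 12 / 11 * (11 / 40) + e ≤ c - S := by linarith

theorem arith_lay4 {c S : ℝ} (h1 : 1 / 2 ≤ c) (h2 : S ≤ 3 / 25 + 1 / 40) {e : ℝ}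
    (he : e ≤ 1 / 252) : 12 / 11 * (8 / 25) + e ≤ c - S := by linarith

theorem arith_lay23 {c k t S : ℝ} (hc : 0 ≤ k) (ht : 0 ≤ t) (ht1 : t ≤ 2 / 21)
    (h1 : k + (1 - k) * (1 - t) ≤ c) (h2 : S ≤ 3 / 20 + 1 / 630) {e : ℝ}
    (he : e ≤ 1 / 252) : 12 / 11 * (13 / 20) + e ≤ c - S := by nlinarith

theorem arith_lay24 {c y S : ℝ} (h1 : 29 / 100 ≤ 1 - c - y) (h2 : S ≤ 1 / 630) {e : ℝ}
    (he : e ≤ 1 / 252) : 12 / 11 * (13 / 50) + e ≤ 1 - c - (y + S) := by linarith

/-- **the combination below the wall** -/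
theorem U0_of {m : ℕ} (hm : 21 ≤ m) (h1 : Stmt_ROW1 m) (h2 : Stmt_NEARU m) :
    U0 m (1 / (12 * m)) (LR.VhB m) := by
  obtain ⟨A₁, H1⟩ := h1
  obtain ⟨A₂, H2⟩ := h2
  refine ⟨max A₁ A₂, fun A hA M hM B hB hBl => ?_⟩
  have hA1 : A₁ ≤ A := (le_max_left _ _).trans hA
  have hA2 : A₂ ≤ A := (le_max_right _ _).trans hA
  have hM1 : 1 ≤ M := by omega
  have hcard := (Lv_spec hB).1
  have hne : B.Nonempty := card_pos.1 (by omega)
  have hw : tb B < M + m := by
    have := hBl (tb B) (tb_mem hne)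
    omega
  obtain ⟨r1, r2, r3, r4⟩ := H1 A hA1 M hM B hB hw
  obtain ⟨hsb, htp, hsp, hbox⟩ := sb_row hB hM1
  have hsm := sb_mem hB hM1
  have hm' : (21 : ℝ) ≤ m := by exact_mod_cast hm
  have hm0 : (0 : ℝ) < m := by linarith
  have h12 : 1 / (12 * (m : ℝ)) ≤ 1 / 252 := one_div_le_one_div_of_le (by norm_num) (by linarith)
  have h30 : 1 / (30 * (m : ℝ)) ≤ 1 / 630 := one_div_le_one_div_of_le (by norm_num) (by linarith)
  -- the value of Vh outside the layer 2
  have hVh1 : M + m = tb B + 1 → LR.VhB m M B = 12 / 11 * (3 / 5) := by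
    intro h
    unfold LR.VhB LR.Vh'
    rw [if_pos (by omega)]
  have hVh3 : M + m = tb B + 3 → LR.VhB m M B = 12 / 11 * (11 / 40) := by
    intro h
    unfold LR.VhB LR.Vh'
    rw [if_neg (by omega), if_neg (by omega), if_pos (by omega)]
  have hVh4 : tb B + 4 ≤ M + m → LR.VhB m M B = 12 / 11 * (8 / 25) := by
    intro h
    unfold LR.VhB LR.Vh'
    rw [if_neg (by omega), if_neg (by omega), if_neg (by omega)]
  have hcases : M + m = tb B + 1 ∨ M + m = tb B + 2 ∨ M + m = tb B + 3 ∨ tb B + 4 ≤ M + m := by omega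
  obtain ⟨i, hi⟩ : ∃ i, M + m = sb B + i := ⟨M + m - sb B, by omega⟩
  have him : i ≤ m + 1 := by omega
  by_cases hn : 3 * (M + m - sb B) ≤ m + 6
  · -- row 2 is near
    obtain ⟨n1, n23, n24, n25, n3, n4⟩ := H2 A hA2 M hM B hB hw hn
    have hsplit : ∑ x ∈ B.erase (tb B), Cr m A (M + m) B x =
        Cr m A (M + m) B (sb B) + ∑ x ∈ (B.erase (tb B)).erase (sb B), Cr m A (M + m) B x :=
      (add_sum_erase _ _ hsm).symm
    have hsub : (B.erase (tb B)).erase (sb B) ⊆ B.erase (tb B) := erase_subset _ _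
    have hle : ∑ x ∈ (B.erase (tb B)).erase (sb B), Cr m A (M + m) B x ≤
        ∑ x ∈ (B.erase (tb B)).erase (sb B), |Cr m A (M + m) B x| :=
      sum_le_sum fun x _ => le_abs_self _
    have g3 := FAR_gen3 (A := A) hm hB hw hsub fun x hx => rest_upr hB hM1 hx
    have glow : M + m ≤ tb B + 3 → ∑ x ∈ (B.erase (tb B)).erase (sb B), |Cr m A (M + m) B x| ≤
        1 / (30 * m) := fun h =>
      FAR_low (A := A) hm hB hw h hsub fun x hx => Or.inr (rest_upr hB hM1 hx)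
    rw [hsplit]
    rcases hcases with h | h | h | h
    · rw [hVh1 h]
      have a3 := hle.trans ((glow (by omega)).trans h30)
      exact arith_lay1 (r1 h) (add_le_add (n1 h) a3) h12
    · have a1 := r2 h
      have a3 := glow (by omega)
      have hb : sb B + 1 - M = m + 1 - i := by omega
      have hbc : ((m + 1 - i : ℕ) : ℝ) = (m : ℝ) + 1 - i := by
        rw [Nat.cast_sub him]
        push_cast
        ring
      rw [hb, hbc, show (m : ℝ) - 1 - ((m : ℝ) + 1 - i) = (i : ℝ) - 2 by ring] at a1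
      have hc := cm_ge (m := m) (by omega)
      have hc1 := cm_le_one' hm
      have hi3 : 3 ≤ i := by omega
      rcases eq_or_lt_of_le hi3 with hi3 | hi4
      · -- (2, 3)
        have a2 := n23 h (by omega)
        have hV : LR.VhB m M B = 12 / 11 * (13 / 20) := by
          unfold LR.VhB LR.Vh'
          have e2 : tb (B.erase (tb B)) + 1 - M = m + 1 - i := hb
          rw [e2, if_neg (by omega), if_pos (by omega), if_pos (by omega)]
        rw [hV]
        have hir : (i : ℝ) = 3 := by exact_mod_cast hi3.symm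
        rw [hir] at a1
        have e : ((m : ℝ) + 1 - 3) / (m * ((3 : ℝ) - 2)) = 1 - 2 / m := by
          rw [show (3 : ℝ) - 2 = 1 by norm_num, mul_one, eq_sub_iff_add_eq, ← add_div,
            div_eq_one_iff_eq hm0.ne']
          ring
        rw [e] at a1
        have h2m : 2 / (m : ℝ) ≤ 2 / 21 := div_le_div_of_nonneg_left (by norm_num) (by norm_num) hm'
        have h2p : 0 ≤ 2 / (m : ℝ) := by positivity
        have hcp : 0 ≤ cm m := le_trans (by positivity) hc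
        exact arith_lay23 hcp h2p h2m a1 (add_le_add a2 (hle.trans (a3.trans h30))) h12
      · rcases eq_or_lt_of_le (show 4 ≤ i by omega) with hi4' | hi5
        · -- (2, 4)
          have a2 := n24 h (by omega)
          have hV : LR.VhB m M B = 12 / 11 * (13 / 50) := by
            unfold LR.VhB LR.Vh'
            have e2 : tb (B.erase (tb B)) + 1 - M = m + 1 - i := hb
            rw [e2, if_neg (by omega), if_pos (by omega), if_neg (by omega), if_pos (by omega)]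
          rw [hV]
          exact arith_lay24 a2 (hle.trans (a3.trans h30)) h12
        · -- (2, i ≥ 5)
          have a2 := n25 h i (by omega) hi
          rw [VhB_layer2 hm (by omega) him h (by omega)]
          exact layer2_arith hm (by omega : 5 ≤ i) him hc hc1
            (w := Cr m A (M + m) B (sb B) +
              ∑ x ∈ (B.erase (tb B)).erase (sb B), Cr m A (M + m) B x)
            (Or.inl ⟨by omega, add_le_add a2 (hle.trans a3)⟩) a1
    · rw [hVh3 h]
      exact arith_lay3 (r3 h) (add_le_add (n3 h) (hle.trans ((glow (by omega)).trans h30))) h12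
    · rw [hVh4 h]
      exact arith_lay4 (r4 h) (add_le_add (n4 h) (hle.trans g3)) h12
  · -- row 2 is far
    have hle : ∑ x ∈ B.erase (tb B), Cr m A (M + m) B x ≤
        ∑ x ∈ B.erase (tb B), |Cr m A (M + m) B x| :=
      sum_le_sum fun x _ => le_abs_self _
    have g := FAR_gen (A := A) hm hB hw Subset.rfl fun x hx => far_of_not_near hn hx
    have glow : M + m ≤ tb B + 3 → ∑ x ∈ B.erase (tb B), |Cr m A (M + m) B x| ≤
        1 / (30 * m) := fun h =>
      FAR_low (A := A) hm hB hw h Subset.rfl fun x hx => far_of_not_near hn hx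
    rcases hcases with h | h | h | h
    · rw [hVh1 h]
      exact arith_lay1 (r1 h) (hle.trans ((glow (by omega)).trans (h30.trans (by norm_num)))) h12
    · have a1 := r2 h
      have a3 := glow (by omega)
      have hb : sb B + 1 - M = m + 1 - i := by omega
      have hbc : ((m + 1 - i : ℕ) : ℝ) = (m : ℝ) + 1 - i := by
        rw [Nat.cast_sub him]
        push_cast
        ring
      rw [hb, hbc, show (m : ℝ) - 1 - ((m : ℝ) + 1 - i) = (i : ℝ) - 2 by ring] at a1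
      have hc := cm_ge (m := m) (by omega)
      have hc1 := cm_le_one' hm
      rw [VhB_layer2 hm (by omega) him h (by omega)]
      exact layer2_arith hm (by omega : 5 ≤ i) him hc hc1
        (w := ∑ x ∈ B.erase (tb B), Cr m A (M + m) B x) (Or.inr (hle.trans a3)) a1
    · rw [hVh3 h]
      exact arith_lay3 (r3 h) (hle.trans ((glow (by omega)).trans (h30.trans (by norm_num)))) h12
    · rw [hVh4 h]
      exact arith_lay4 (r4 h) (hle.trans (g.trans (by norm_num))) h12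

/-- **the combination beyond the wall** -/
theorem BD_of {m : ℕ} (hm : 21 ≤ m) (hRW : LR.Stmt_RW) (h2 : Stmt_NEARB m) : BD m (LR.WR m) := by
  obtain ⟨A₂, H2⟩ := h2
  refine ⟨max A₂ 1, fun A hA0 M hM i hi1 him C hC => ?_⟩
  have hA : A₂ ≤ A := (le_max_left _ _).trans hA0
  have hA1 : 1 ≤ A := (le_max_right _ _).trans hA0
  obtain ⟨X, hX⟩ : ∃ X, X = m + (m - 3) + M - i := ⟨_, rfl⟩
  rw [← hX]
  obtain ⟨c1, c2⟩ := mem_Lv_iff.1 hC
  have hlt : ∀ y ∈ C, y < X := by
    intro y hy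
    have := (Lv_spec hC).2.2.1 y hy
    omega
  have hXC : X ∉ C := fun h => lt_irrefl _ (hlt _ h)
  have hB : insert X C ∈ Lv (M + 1) (m + (m - 3)) := by
    refine mem_Lv_iff.2 ⟨by rw [card_insert_of_notMem hXC, c1], ?_⟩
    rw [sum_insert hXC, c2, sum_range_succ]
    omega
  have htb : tb (insert X C) = X := tb_insert hlt
  have her : (insert X C).erase (tb (insert X C)) = C := by rw [htb, erase_insert hXC]
  have hw : M + m ≤ tb (insert X C) := by rw [htb]; omega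
  have hM1 : 1 ≤ M := by omega
  obtain ⟨hsb, htp, hsp, hbox⟩ := sb_row hB hM1
  have hsm := sb_mem hB hM1
  have hsbC : sb (insert X C) = tb C := by unfold sb; rw [her]
  have hRW' := hRW m M i (by omega) (by omega) hi1 him C hC
  rw [← hX] at hRW'
  refine le_trans (mul_le_mul_of_nonneg_right ?_ (ex_pos _).le) hRW'
  -- the second bead
  rw [hsbC] at hsp hsm
  have hlen : tb C < M + i := (Lv_spec hC).2.2.1 _ (tb_mem (card_pos.1 (by rw [c1]; omega)))
  obtain ⟨j, hj⟩ : ∃ j, M + m = tb C + (j + 4) := ⟨M + m - tb C - 4, by omega⟩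
  have ej : m - 3 - (tb C + 1 - M) = j := by omega
  rw [ej]
  have hcond : (tb C + 1 - M = m - 3) ↔ j = 0 := by omega
  set B := insert X C with hBdef
  have hq : (0 : ℝ) < (3 / 4) ^ j := by positivity
  by_cases hn : 3 * (M + m - sb B) ≤ m + 6
  · obtain ⟨n0, n1, n2⟩ := H2 A hA M hM B hB hw hn
    have hsplit : ∑ x ∈ C, Cr m A (M + m) B x =
        Cr m A (M + m) B (sb B) + ∑ x ∈ C.erase (sb B), Cr m A (M + m) B x := by
      rw [hsbC]
      exact (add_sum_erase _ _ (by rw [her] at hsm; exact hsm)).symm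
    have hsub : C.erase (sb B) ⊆ B.erase (tb B) := by
      rw [her]
      exact erase_subset _ _
    have hup : ∀ x ∈ C.erase (sb B), 2 ≤ upr B x := by
      intro x hx
      refine rest_upr hB hM1 ?_
      rw [her]
      exact hx
    have habs : |∑ x ∈ C, Cr m A (M + m) B x| ≤
        |Cr m A (M + m) B (sb B)| + ∑ x ∈ C.erase (sb B), |Cr m A (M + m) B x| := by
      rw [hsplit]
      exact (abs_add_le _ _).trans (add_le_add_right (abs_sum_le_sum_abs _ _) _)
    refine habs.trans ?_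
    have g3 := FAR_bd3' (A := A) hm hB hw hsub hup
    rcases Nat.eq_zero_or_pos j with rfl | hj0
    · rw [if_pos (hcond.2 rfl)]
      have := n0 (by rw [hsbC]; omega)
      linarith
    · rw [if_neg fun h => by have := hcond.1 h; omega]
      rcases Nat.lt_or_ge j 2 with hj2 | hj2
      · obtain rfl : j = 1 := by omega
        have := n1 (by rw [hsbC]; omega)
        rw [pow_one]
        linarith
      · have h3 := n2 (j + 4) (by omega) (by rw [hsbC]; omega)
        rw [Nat.add_sub_cancel] at h3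
        have g := FAR_bd3 (A := A) hm hB hw hsub hup (j := j) fun x hx => by
          have hxB := hsub hx
          have h4 := ln_mono (mem_of_mem_erase hxB) (le_sb hxB)
          rw [hsbC] at h4
          omega
        linarith
  · -- row 2 is far
    have hj2 : j ≠ 0 := by
      rintro rfl
      rw [hsbC] at hn
      omega
    rw [if_neg fun h => hj2 (hcond.1 h)]
    have hsub : C ⊆ B.erase (tb B) := by rw [her]
    have g := FAR_bd (A := A) hm hB hw hsub (fun x hx => far_of_not_near hn (hsub hx)) (j := j)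
      fun x hx => by
        have hxB := hsub hx
        have h4 := ln_mono (mem_of_mem_erase hxB) (le_sb hxB)
        rw [hsbC] at h4
        omega
    have h5 := abs_sum_le_sum_abs (fun x => Cr m A (M + m) B x) C
    linarith

end Pool.JM
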