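import Pool.Agent.Work.MP_46fa68_h5.RowDefs

/-!
# MP_46fa68_co: the far rows, numbers (I): a majorant of `SrR`, monotonicity in `m`, the step of the row index
-/

set_option autoImplicit false

open Finset

namespace Pool.JM

noncomputable def k1R (m : ℕ) : ℝ := (3 * (m : ℝ) - 2) / ((m : ℝ) - 3)

noncomputable def kBR (m i : ℕ) : ℝ :=
  2 * ((m : ℝ) - 1) / ((m : ℝ) - 3) + ((i : ℝ) - 1) * ((i : ℝ) - 2) / (2 * ((m : ℝ) - 3) * ((m : ℝ) + 1))

noncomputable def kGR (m i : ℕ) : ℝ := (((m : ℝ) + 2) / ((m : ℝ) + 1)) ^ (i - 2)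

noncomputable def kER (m i : ℕ) : ℝ := EyR m i * (1 - 1 / yR m i) + 1 / yR m i

noncomputable def k2R (m i : ℕ) : ℝ := kBR m i * kGR m i + muR m i * kER m i

noncomputable def k0R (m i : ℕ) : ℝ :=
  kBR m i * kGR m i * (((i : ℝ) - 2) / ((m : ℝ) + 1)) + muR m i * (yR m i * EyR m i)

/-- the linear majorant of `SrR` -/
noncomputable def SrP (m i : ℕ) (e1 e : ℝ) : ℝ := k1R m * e1 + k2R m i * e + k0R m i

section basic

variable {m n i : ℕ}

theorem yR_ge (m i : ℕ) : 1 ≤ yR m i := by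
  unfold yR
  have : (0 : ℝ) ≤ ((i - 5 : ℕ) : ℝ) / ((m : ℝ) + 1) := by positivity
  linarith

theorem EyR_ge (hm : 4 ≤ m) (i : ℕ) : 1 ≤ EyR m i := by
  unfold EyR
  have hm' : (4 : ℝ) ≤ m := by exact_mod_cast hm
  have h1 : (1 : ℝ) ≤ (((m : ℝ) + 1) / m) ^ (i - 5) := by
    refine one_le_pow₀ ?_
    rw [le_div_iff₀ (by linarith)]
    linarith
  linarith

theorem muR_ge (m i : ℕ) : 1 ≤ muR m i := le_max_left _ _

theorem kER_ge (hm : 4 ≤ m) (i : ℕ) : 1 ≤ kER m i := by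
  have h1 := yR_ge m i
  have h2 := EyR_ge hm i
  unfold kER
  have h3 : 1 / yR m i ≤ 1 := by
    rw [div_le_one (by linarith)]
    exact h1
  nlinarith

theorem kBR_nonneg (hm : 4 ≤ m) (hi : 2 ≤ i) : 0 ≤ kBR m i := by
  unfold kBR
  have hm' : (4 : ℝ) ≤ m := by exact_mod_cast hm
  have hi' : (2 : ℝ) ≤ i := by exact_mod_cast hi
  have h1 : 0 ≤ 2 * ((m : ℝ) - 1) / ((m : ℝ) - 3) :=
    div_nonneg (by linarith) (by linarith)
  have h2 : 0 ≤ ((i : ℝ) - 1) * ((i : ℝ) - 2) / (2 * ((m : ℝ) - 3) * ((m : ℝ) + 1)) :=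
    div_nonneg (mul_nonneg (by linarith) (by linarith))
      (mul_nonneg (by linarith) (by linarith))
  linarith

theorem kGR_nonneg (m i : ℕ) : 0 ≤ kGR m i := by unfold kGR; positivity

theorem k1R_nonneg (hm : 4 ≤ m) : 0 ≤ k1R m := by
  unfold k1R
  have hm' : (4 : ℝ) ≤ m := by exact_mod_cast hm
  exact div_nonneg (by linarith) (by linarith)

theorem k2R_nonneg (hm : 4 ≤ m) (hi : 2 ≤ i) : 0 ≤ k2R m i := by
  unfold k2R
  have := kBR_nonneg hm hi
  have := kGR_nonneg m i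
  have := muR_ge m i
  have := kER_ge hm i
  positivity

theorem k0R_nonneg (hm : 4 ≤ m) (hi : 2 ≤ i) : 0 ≤ k0R m i := by
  unfold k0R
  have h1 := kBR_nonneg hm hi
  have h2 := kGR_nonneg m i
  have h3 := muR_ge m i
  have h4 := yR_ge m i
  have h5 := EyR_ge hm i
  have hi' : (2 : ℝ) ≤ i := by exact_mod_cast hi
  have h6 : 0 ≤ ((i : ℝ) - 2) / ((m : ℝ) + 1) := div_nonneg (by linarith) (by positivity)
  have h7 : 0 ≤ muR m i * (yR m i * EyR m i) :=
    mul_nonneg (by linarith) (mul_nonneg (by linarith) (by linarith))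
  have h8 : 0 ≤ kBR m i * kGR m i * (((i : ℝ) - 2) / ((m : ℝ) + 1)) :=
    mul_nonneg (mul_nonneg h1 h2) h6
  linarith

theorem SrP_nonneg (hm : 4 ≤ m) (hi : 2 ≤ i) {e1 e : ℝ} (h1 : 0 ≤ e1) (h2 : 0 ≤ e) :
    0 ≤ SrP m i e1 e := by
  unfold SrP
  have := mul_nonneg (k1R_nonneg hm) h1
  have := mul_nonneg (k2R_nonneg hm hi) h2
  have := k0R_nonneg hm hi
  linarith

theorem SrP_mono (hm : 4 ≤ m) (hi : 2 ≤ i) {e1 e e1' e' : ℝ} (h1 : e1 ≤ e1') (h2 : e ≤ e') :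
    SrP m i e1 e ≤ SrP m i e1' e' := by
  unfold SrP
  have := mul_le_mul_of_nonneg_left h1 (k1R_nonneg hm)
  have := mul_le_mul_of_nonneg_left h2 (k2R_nonneg hm hi)
  linarith

theorem SrR_le (hm : 4 ≤ m) (d : ℝ) :
    SrR m i d ≤ SrP m i |d - 1| |d| := by
  have h3 := muR_ge m i
  have h5 := kER_ge hm i
  have h6 : SAR (yR m i) (EyR m i) |d| ≤ yR m i * EyR m i + |d| * kER m i := by
    unfold SAR kER
    unfold kER at h5
    nlinarith
  have h7 := mul_le_mul_of_nonneg_left h6 (by linarith : 0 ≤ muR m i)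
  unfold SrR SrP k1R k2R k0R kBR kGR
  nlinarith

/-! ### monotonicity in `m` -/

theorem k1R_anti (hn : 4 ≤ n) (h : n ≤ m) : k1R m ≤ k1R n := by
  unfold k1R
  have hn' : (4 : ℝ) ≤ n := by exact_mod_cast hn
  have h' : (n : ℝ) ≤ m := by exact_mod_cast h
  rw [div_le_div_iff₀ (by linarith) (by linarith)]
  nlinarith

theorem kBR_anti (hn : 4 ≤ n) (h : n ≤ m) (hi : 2 ≤ i) : kBR m i ≤ kBR n i := by
  unfold kBR
  have hn' : (4 : ℝ) ≤ n := by exact_mod_cast hn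
  have h' : (n : ℝ) ≤ m := by exact_mod_cast h
  have hi' : (2 : ℝ) ≤ i := by exact_mod_cast hi
  have h1 : 2 * ((m : ℝ) - 1) / ((m : ℝ) - 3) ≤ 2 * ((n : ℝ) - 1) / ((n : ℝ) - 3) := by
    rw [div_le_div_iff₀ (by linarith) (by linarith)]
    nlinarith
  have h2 : ((i : ℝ) - 1) * ((i : ℝ) - 2) / (2 * ((m : ℝ) - 3) * ((m : ℝ) + 1)) ≤
      ((i : ℝ) - 1) * ((i : ℝ) - 2) / (2 * ((n : ℝ) - 3) * ((n : ℝ) + 1)) := by
    refine div_le_div_of_nonneg_left (mul_nonneg (by linarith) (by linarith))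
      (mul_pos (by linarith) (by linarith)) ?_
    exact mul_le_mul (by linarith) (by linarith) (by linarith) (by linarith)
  linarith

theorem kGR_anti (h : n ≤ m) : kGR m i ≤ kGR n i := by
  unfold kGR
  have h' : (n : ℝ) ≤ m := by exact_mod_cast h
  have h0 : (0 : ℝ) ≤ n := by positivity
  refine pow_le_pow_left₀ (by positivity) ?_ _
  rw [div_le_div_iff₀ (by linarith) (by linarith)]
  nlinarith

theorem yR_anti (h : n ≤ m) : yR m i ≤ yR n i := by
  unfold yR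
  have h' : (n : ℝ) ≤ m := by exact_mod_cast h
  have h0 : (0 : ℝ) ≤ n := by positivity
  have : ((i - 5 : ℕ) : ℝ) / ((m : ℝ) + 1) ≤ ((i - 5 : ℕ) : ℝ) / ((n : ℝ) + 1) :=
    div_le_div_of_nonneg_left (by positivity) (by linarith) (by linarith)
  linarith

theorem EyR_anti (hn : 4 ≤ n) (h : n ≤ m) : EyR m i ≤ EyR n i := by
  unfold EyR
  have hn' : (4 : ℝ) ≤ n := by exact_mod_cast hn
  have h' : (n : ℝ) ≤ m := by exact_mod_cast h
  refine mul_le_mul_of_nonneg_left ?_ (by norm_num)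
  refine pow_le_pow_left₀ (by positivity) ?_ _
  rw [div_le_div_iff₀ (by linarith) (by linarith)]
  nlinarith

theorem muR_anti (hn : 4 ≤ n) (h : n ≤ m) : muR m i ≤ muR n i := by
  unfold muR
  have hn' : (4 : ℝ) ≤ n := by exact_mod_cast hn
  have h' : (n : ℝ) ≤ m := by exact_mod_cast h
  refine max_le_max le_rfl ?_
  have h0 : (0 : ℝ) ≤ i := by positivity
  rw [div_le_div_iff₀ (by linarith) (by linarith)]
  nlinarith

theorem ker_mono {y y' E E' : ℝ} (h1 : 1 ≤ y) (h2 : y ≤ y') (h3 : 1 ≤ E) (h4 : E ≤ E') :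
    E * (1 - 1 / y) + 1 / y ≤ E' * (1 - 1 / y') + 1 / y' := by
  have e1 : 1 / y' ≤ 1 / y := one_div_le_one_div_of_le (by linarith) h2
  have e2 : 1 / y ≤ 1 := by
    rw [div_le_one (by linarith)]
    exact h1
  nlinarith

theorem kER_anti (hn : 4 ≤ n) (h : n ≤ m) : kER m i ≤ kER n i :=
  ker_mono (yR_ge m i) (yR_anti h) (EyR_ge (hn.trans h) i) (EyR_anti hn h)

theorem k2R_anti (hn : 4 ≤ n) (h : n ≤ m) (hi : 2 ≤ i) : k2R m i ≤ k2R n i := by
  unfold k2R
  have a1 := kBR_anti hn h hi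
  have a2 := kGR_anti (i := i) h
  have a3 := muR_anti (i := i) hn h
  have a4 := kER_anti (i := i) hn h
  have b1 := kBR_nonneg (hn.trans h) hi
  have b2 := kGR_nonneg m i
  have b3 := muR_ge m i
  have b4 := kER_ge (hn.trans h) i
  have c1 : kBR m i * kGR m i ≤ kBR n i * kGR n i := mul_le_mul a1 a2 b2 (by linarith)
  have c2 : muR m i * kER m i ≤ muR n i * kER n i := mul_le_mul a3 a4 (by linarith) (by linarith)
  linarith

theorem k0R_anti (hn : 4 ≤ n) (h : n ≤ m) (hi : 2 ≤ i) : k0R m i ≤ k0R n i := by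
  unfold k0R
  have a1 := kBR_anti hn h hi
  have a2 := kGR_anti (i := i) h
  have a3 := muR_anti (i := i) hn h
  have a4 := yR_anti (i := i) h
  have a5 := EyR_anti (i := i) hn h
  have b1 := kBR_nonneg (hn.trans h) hi
  have b2 := kGR_nonneg m i
  have b3 := muR_ge m i
  have b4 := yR_ge m i
  have b5 := EyR_ge (hn.trans h) i
  have h' : (n : ℝ) ≤ m := by exact_mod_cast h
  have h0 : (0 : ℝ) ≤ n := by positivity
  have hi' : (2 : ℝ) ≤ i := by exact_mod_cast hi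
  have c1 : kBR m i * kGR m i ≤ kBR n i * kGR n i := mul_le_mul a1 a2 b2 (by linarith)
  have c3 : ((i : ℝ) - 2) / ((m : ℝ) + 1) ≤ ((i : ℝ) - 2) / ((n : ℝ) + 1) :=
    div_le_div_of_nonneg_left (by linarith) (by linarith) (by linarith)
  have c4 : 0 ≤ ((i : ℝ) - 2) / ((m : ℝ) + 1) := div_nonneg (by linarith) (by linarith)
  have c5 : kBR m i * kGR m i * (((i : ℝ) - 2) / ((m : ℝ) + 1)) ≤
      kBR n i * kGR n i * (((i : ℝ) - 2) / ((n : ℝ) + 1)) :=
    mul_le_mul c1 c3 c4 (le_trans (mul_nonneg b1 b2) c1)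
  have c6 : yR m i * EyR m i ≤ yR n i * EyR n i := mul_le_mul a4 a5 (by linarith) (by linarith)
  have c7 : muR m i * (yR m i * EyR m i) ≤ muR n i * (yR n i * EyR n i) :=
    mul_le_mul a3 c6 (mul_nonneg (by linarith) (by linarith)) (by linarith)
  linarith

theorem SrP_anti (hn : 4 ≤ n) (h : n ≤ m) (hi : 2 ≤ i) {e1 e : ℝ} (h1 : 0 ≤ e1) (h2 : 0 ≤ e) :
    SrP m i e1 e ≤ SrP n i e1 e := by
  unfold SrP
  have := mul_le_mul_of_nonneg_right (k1R_anti hn h) h1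
  have := mul_le_mul_of_nonneg_right (k2R_anti hn h hi) h2
  have := k0R_anti hn h hi
  linarith

/-! ### the step of the row index -/

theorem kB_step (hm : 19 ≤ m) (hi : 14 ≤ i) : kBR m (i + 1) * kGR m (i + 1) ≤
    49 / 40 * (kBR m i * kGR m i) := by
  have hm' : (19 : ℝ) ≤ m := by exact_mod_cast hm
  have hi' : (14 : ℝ) ≤ i := by exact_mod_cast hi
  have h1 : kBR m (i + 1) ≤ 7 / 6 * kBR m i := by
    unfold kBR
    push_cast
    have e1 : 0 ≤ 2 * ((m : ℝ) - 1) / ((m : ℝ) - 3) := div_nonneg (by linarith) (by linarith)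
    have e2 : ((i : ℝ) + 1 - 1) * ((i : ℝ) + 1 - 2) / (2 * ((m : ℝ) - 3) * ((m : ℝ) + 1)) ≤
        7 / 6 * (((i : ℝ) - 1) * ((i : ℝ) - 2) / (2 * ((m : ℝ) - 3) * ((m : ℝ) + 1))) := by
      rw [← mul_div_assoc]
      refine div_le_div_of_nonneg_right ?_ (mul_nonneg (by linarith) (by linarith))
      nlinarith
    linarith
  have h2 : kGR m (i + 1) ≤ 21 / 20 * kGR m i := by
    unfold kGR
    rw [show i + 1 - 2 = i - 2 + 1 by omega, pow_succ, mul_comm]
    refine mul_le_mul_of_nonneg_right ?_ (by positivity)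
    rw [div_le_iff₀ (by linarith)]
    linarith
  have h3 := kGR_nonneg m i
  have h4 := kGR_nonneg m (i + 1)
  have h5 := kBR_nonneg (m := m) (i := i) (by omega) (by omega)
  calc kBR m (i + 1) * kGR m (i + 1) ≤ 7 / 6 * kBR m i * (21 / 20 * kGR m i) :=
        mul_le_mul h1 h2 h4 (by linarith)
    _ = 49 / 40 * (kBR m i * kGR m i) := by ring

theorem mu_step (hm : 19 ≤ m) : muR m (i + 1) ≤ 17 / 16 * muR m i := by
  have hm' : (19 : ℝ) ≤ m := by exact_mod_cast hm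
  have h0 := muR_ge m i
  unfold muR
  refine max_le ?_ ?_
  · unfold muR at h0
    linarith
  · have h1 : ((i : ℝ) - ((m : ℝ) - 3)) / ((m : ℝ) - 3) ≤ muR m i := le_max_right _ _
    have h2 : (((i + 1 : ℕ) : ℝ) - ((m : ℝ) - 3)) / ((m : ℝ) - 3) =
        ((i : ℝ) - ((m : ℝ) - 3)) / ((m : ℝ) - 3) + 1 / ((m : ℝ) - 3) := by
      push_cast
      ring
    have h3 : 1 / ((m : ℝ) - 3) ≤ 1 / 16 := one_div_le_one_div_of_le (by norm_num) (by linarith)
    rw [h2]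
    unfold muR at h0 h1
    linarith

theorem y_step (hm : 19 ≤ m) (hi : 14 ≤ i) :
    yR m (i + 1) ≤ 21 / 20 * yR m i ∧ yR m i ≤ yR m (i + 1) ∧
      (yR m (i + 1) - 1) ≤ 10 / 9 * (yR m i - 1) := by
  have hm' : (19 : ℝ) ≤ m := by exact_mod_cast hm
  obtain ⟨k, rfl⟩ : ∃ k, i = k + 5 := ⟨i - 5, by omega⟩
  have hk : (9 : ℝ) ≤ k := by exact_mod_cast (by omega : 9 ≤ k)
  have e : yR m (k + 5 + 1) = yR m (k + 5) + 1 / ((m : ℝ) + 1) := by
    unfold yR
    rw [show k + 5 + 1 - 5 = k + 1 by omega, show k + 5 - 5 = k by omega]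
    push_cast
    ring
  have h1 := yR_ge m (k + 5)
  have h2 : 1 / ((m : ℝ) + 1) ≤ 1 / 20 := one_div_le_one_div_of_le (by norm_num) (by linarith)
  have h3 : 0 ≤ 1 / ((m : ℝ) + 1) := by positivity
  have h4 : yR m (k + 5) - 1 = k * (1 / ((m : ℝ) + 1)) := by
    unfold yR
    rw [show k + 5 - 5 = k by omega]
    ring
  rw [e]
  refine ⟨by linarith, by linarith, ?_⟩
  have h5 : yR m (k + 5) + 1 / ((m : ℝ) + 1) - 1 = (yR m (k + 5) - 1) + 1 / ((m : ℝ) + 1) := by ring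
  rw [h5, h4]
  nlinarith

theorem E_step (hm : 19 ≤ m) (hi : 5 ≤ i) : EyR m (i + 1) ≤ 20 / 19 * EyR m i := by
  have hm' : (19 : ℝ) ≤ m := by exact_mod_cast hm
  unfold EyR
  rw [show i + 1 - 5 = i - 5 + 1 by omega, pow_succ]
  have h1 : ((m : ℝ) + 1) / m ≤ 20 / 19 := by
    rw [div_le_div_iff₀ (by linarith) (by norm_num)]
    linarith
  have h2 : (0 : ℝ) ≤ (((m : ℝ) + 1) / m) ^ (i - 5) := by positivity
  nlinarith

theorem kE_step (hm : 19 ≤ m) (hi : 14 ≤ i) : kER m (i + 1) ≤ 200 / 171 * kER m i := by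
  obtain ⟨h1, h2, h3⟩ := y_step hm hi
  have h4 := E_step hm (show 5 ≤ i by omega)
  have h5 := yR_ge m i
  have h6 := EyR_ge (m := m) (by omega) i
  have h7 := EyR_ge (m := m) (by omega) (i + 1)
  unfold kER
  have e1 : 1 - 1 / yR m i = (yR m i - 1) / yR m i := by
    field_simp
  have e2 : 1 - 1 / yR m (i + 1) = (yR m (i + 1) - 1) / yR m (i + 1) := by
    have : yR m (i + 1) ≠ 0 := by linarith
    field_simp
  have e3 : (yR m (i + 1) - 1) / yR m (i + 1) ≤ 10 / 9 * ((yR m i - 1) / yR m i) := by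
    rw [← mul_div_assoc]
    exact div_le_div₀ (by linarith) h3 (by linarith) h2
  have e4 : 0 ≤ (yR m i - 1) / yR m i := div_nonneg (by linarith) (by linarith)
  have e5 : 0 ≤ (yR m (i + 1) - 1) / yR m (i + 1) := div_nonneg (by linarith) (by linarith)
  have e6 : 1 / yR m (i + 1) ≤ 1 / yR m i := one_div_le_one_div_of_le (by linarith) h2
  have e7 : 0 ≤ 1 / yR m i := by positivity
  rw [e1, e2]
  have e8 : EyR m (i + 1) * ((yR m (i + 1) - 1) / yR m (i + 1)) ≤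
      20 / 19 * EyR m i * (10 / 9 * ((yR m i - 1) / yR m i)) :=
    mul_le_mul h4 e3 e5 (by linarith)
  have e9 : 20 / 19 * EyR m i * (10 / 9 * ((yR m i - 1) / yR m i)) =
      200 / 171 * (EyR m i * ((yR m i - 1) / yR m i)) := by ring
  rw [e9] at e8
  linarith

theorem SrP_step (hm : 19 ≤ m) (hi : 14 ≤ i) {e1 e : ℝ} (h1 : 0 ≤ e1) (h2 : 0 ≤ e) :
    SrP m (i + 1) e1 e ≤ 4 / 3 * SrP m i e1 e := by
  have hm' : (19 : ℝ) ≤ m := by exact_mod_cast hm
  have hi' : (14 : ℝ) ≤ i := by exact_mod_cast hi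
  have a1 := kB_step hm hi
  have a2 := mu_step (i := i) hm
  have a3 := kE_step hm hi
  have a4 := (y_step hm hi).1
  have a5 := E_step hm (show 5 ≤ i by omega)
  have b0 := k1R_nonneg (m := m) (by omega)
  have b1 : 0 ≤ kBR m i * kGR m i := mul_nonneg (kBR_nonneg (by omega) (by omega)) (kGR_nonneg m i)
  have b1' : 0 ≤ kBR m (i + 1) * kGR m (i + 1) :=
    mul_nonneg (kBR_nonneg (by omega) (by omega)) (kGR_nonneg m (i + 1))
  have b2 := muR_ge m i
  have b2' := muR_ge m (i + 1)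
  have b3 := kER_ge (m := m) (by omega) i
  have b3' := kER_ge (m := m) (by omega) (i + 1)
  have b4 := yR_ge m i
  have b4' := yR_ge m (i + 1)
  have b5 := EyR_ge (m := m) (by omega) i
  have b5' := EyR_ge (m := m) (by omega) (i + 1)
  have c1 : muR m (i + 1) * kER m (i + 1) ≤ 17 / 16 * muR m i * (200 / 171 * kER m i) :=
    mul_le_mul a2 a3 (by linarith) (by linarith)
  have c2 : yR m (i + 1) * EyR m (i + 1) ≤ 21 / 20 * yR m i * (20 / 19 * EyR m i) :=
    mul_le_mul a4 a5 (by linarith) (by linarith)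
  have c3 : muR m (i + 1) * (yR m (i + 1) * EyR m (i + 1)) ≤
      17 / 16 * muR m i * (21 / 20 * yR m i * (20 / 19 * EyR m i)) :=
    mul_le_mul a2 c2 (mul_nonneg (by linarith) (by linarith)) (by linarith)
  have d1 : 0 ≤ muR m i * kER m i := mul_nonneg (by linarith) (by linarith)
  have d2 : 0 ≤ muR m i * (yR m i * EyR m i) :=
    mul_nonneg (by linarith) (mul_nonneg (by linarith) (by linarith))
  have f1 : k2R m (i + 1) ≤ 4 / 3 * k2R m i := by
    unfold k2R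
    nlinarith
  have c4 : (((i + 1 : ℕ) : ℝ) - 2) / ((m : ℝ) + 1) ≤ 13 / 12 * (((i : ℝ) - 2) / ((m : ℝ) + 1)) := by
    push_cast
    rw [← mul_div_assoc]
    refine div_le_div_of_nonneg_right ?_ (by linarith)
    linarith
  have c5 : 0 ≤ (((i + 1 : ℕ) : ℝ) - 2) / ((m : ℝ) + 1) := by
    push_cast
    exact div_nonneg (by linarith) (by linarith)
  have c6 : 0 ≤ ((i : ℝ) - 2) / ((m : ℝ) + 1) := div_nonneg (by linarith) (by linarith)
  have c7 : kBR m (i + 1) * kGR m (i + 1) * ((((i + 1 : ℕ) : ℝ) - 2) / ((m : ℝ) + 1)) ≤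
      49 / 40 * (kBR m i * kGR m i) * (13 / 12 * (((i : ℝ) - 2) / ((m : ℝ) + 1))) :=
    mul_le_mul a1 c4 c5 (by linarith)
  have d3 : 0 ≤ kBR m i * kGR m i * (((i : ℝ) - 2) / ((m : ℝ) + 1)) := mul_nonneg b1 c6
  have f0 : k0R m (i + 1) ≤ 4 / 3 * k0R m i := by
    unfold k0R
    nlinarith
  have g1 := mul_le_mul_of_nonneg_right f1 h2
  have g2 := mul_nonneg b0 h1
  unfold SrP
  nlinarith

end basic

end Pool.JM
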