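import Pool.Agent.Work.MP_46fa68_99.Far1

/-!
# MP_46fa68_co: the far rows, numbers (II): the factorial part and the tables
-/

set_option autoImplicit false

open Finset

namespace Pool.JM

/-- the factorial part without the power of `4/5`: row of length `a`, index `v + 2`, `m = a + s + 4` -/
noncomputable def zq (a v s : ℕ) : ℝ :=
  (a.factorial : ℝ) * ((a + 2 * s + v + 4).factorial : ℝ) /
    (((a + s).factorial : ℝ) * ((a + s + 4).factorial : ℝ) * ((s + v + 4).factorial : ℝ) *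
      (v.factorial : ℝ))

/-- the factorial part with the power of `4/5` -/
noncomputable def zf (a v s : ℕ) : ℝ := zq a v s * (4 / 5) ^ (v * a)

theorem zq_pos (a v s : ℕ) : 0 < zq a v s := by unfold zq; positivity

theorem zf_pos (a v s : ℕ) : 0 < zf a v s := mul_pos (zq_pos a v s) (by positivity)

theorem bern (v : ℕ) : (4 / 5 : ℝ) ^ v * (4 + v) ≤ 4 := by
  induction v with
  | zero => norm_num
  | succ v ih =>
    have h1 : (0 : ℝ) < (4 / 5) ^ v := by positivity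
    have h2 : (0 : ℝ) ≤ v := by positivity
    rw [pow_succ]
    push_cast
    nlinarith

theorem zf_a_succ (a v s : ℕ) : zf (a + 1) v s =
    zf a v s * (((a : ℝ) + 1) * ((a : ℝ) + 2 * s + v + 5) /
      (((a : ℝ) + s + 1) * ((a : ℝ) + s + 5)) * (4 / 5) ^ v) := by
  unfold zf zq
  rw [show a + 1 + 2 * s + v + 4 = (a + 2 * s + v + 4) + 1 by ring,
    show a + 1 + s + 4 = (a + s + 4) + 1 by ring, show a + 1 + s = (a + s) + 1 by ring,
    Nat.factorial_succ a, Nat.factorial_succ (a + 2 * s + v + 4), Nat.factorial_succ (a + s + 4),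
    Nat.factorial_succ (a + s), show v * (a + 1) = v * a + v by ring, pow_add]
  push_cast
  have f1 : ((a + s).factorial : ℝ) ≠ 0 := by positivity
  have f2 : ((a + s + 4).factorial : ℝ) ≠ 0 := by positivity
  have f3 : ((s + v + 4).factorial : ℝ) ≠ 0 := by positivity
  have f4 : (v.factorial : ℝ) ≠ 0 := by positivity
  field_simp
  ring

theorem zf_anti_succ (a v s : ℕ) : zf (a + 1) v s ≤ zf a v s := by
  rw [zf_a_succ]
  have h0 := zf_pos a v s
  have h1 := bern v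
  have ha : (0 : ℝ) ≤ a := by positivity
  have hs : (0 : ℝ) ≤ s := by positivity
  have hv : (0 : ℝ) ≤ v := by positivity
  have h2 : (0 : ℝ) < (4 / 5) ^ v := by positivity
  refine mul_le_of_le_one_right h0.le ?_
  rw [div_mul_eq_mul_div, div_le_one (by positivity)]
  have h3 : (((a : ℝ) + 1) * ((a : ℝ) + 2 * s + v + 5)) * 4 ≤
      (((a : ℝ) + s + 1) * ((a : ℝ) + s + 5)) * (4 + v) := by
    have e : (((a : ℝ) + s + 1) * ((a : ℝ) + s + 5)) * (4 + v) -
        (((a : ℝ) + 1) * ((a : ℝ) + 2 * s + v + 5)) * 4 =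
        4 * s ^ 2 + 16 * s + v * (a ^ 2 + 2 * a * s + s ^ 2 + 2 * a + 6 * s + 1) := by ring
    have : 0 ≤ 4 * (s : ℝ) ^ 2 + 16 * s + v * ((a : ℝ) ^ 2 + 2 * a * s + s ^ 2 + 2 * a + 6 * s + 1) := by
      positivity
    linarith
  have h4 : (0 : ℝ) < 4 + v := by positivity
  have h5 : (((a : ℝ) + 1) * ((a : ℝ) + 2 * s + v + 5)) * (4 / 5) ^ v * (4 + v) ≤
      (((a : ℝ) + s + 1) * ((a : ℝ) + s + 5)) * (4 + v) := by
    calc (((a : ℝ) + 1) * ((a : ℝ) + 2 * s + v + 5)) * (4 / 5) ^ v * (4 + v)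
        = (((a : ℝ) + 1) * ((a : ℝ) + 2 * s + v + 5)) * ((4 / 5) ^ v * (4 + v)) := by ring
      _ ≤ (((a : ℝ) + 1) * ((a : ℝ) + 2 * s + v + 5)) * 4 :=
          mul_le_mul_of_nonneg_left h1 (by positivity)
      _ ≤ _ := h3
  exact le_of_mul_le_mul_right h5 h4

theorem zf_anti {a a' : ℕ} (v s : ℕ) (h : a ≤ a') : zf a' v s ≤ zf a v s := by
  induction a', h using Nat.le_induction with
  | base => exact le_rfl
  | succ a' _ ih => exact (zf_anti_succ a' v s).trans ih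

theorem zf_v_succ (a v s : ℕ) : zf a (v + 1) s =
    zf a v s * (((a : ℝ) + 2 * s + v + 5) / (((s : ℝ) + v + 5) * ((v : ℝ) + 1)) * (4 / 5) ^ a) := by
  unfold zf zq
  rw [show a + 2 * s + (v + 1) + 4 = (a + 2 * s + v + 4) + 1 by ring,
    show s + (v + 1) + 4 = (s + v + 4) + 1 by ring,
    Nat.factorial_succ (a + 2 * s + v + 4), Nat.factorial_succ (s + v + 4), Nat.factorial_succ v,
    show (v + 1) * a = v * a + a by ring, pow_add]
  push_cast
  have f1 : ((a + s).factorial : ℝ) ≠ 0 := by positivity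
  have f2 : ((a + s + 4).factorial : ℝ) ≠ 0 := by positivity
  have f3 : ((s + v + 4).factorial : ℝ) ≠ 0 := by positivity
  have f4 : (v.factorial : ℝ) ≠ 0 := by positivity
  field_simp
  ring

theorem zf_v_le (a v s : ℕ) : zf a (v + 1) s ≤ zf a v s * (2 / ((v : ℝ) + 1)) := by
  rw [zf_v_succ]
  have h0 := zf_pos a v s
  have h1 := bern a
  have ha : (0 : ℝ) ≤ a := by positivity
  have hs : (0 : ℝ) ≤ s := by positivity
  have hv : (0 : ℝ) ≤ v := by positivity
  refine mul_le_mul_of_nonneg_left ?_ h0.le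
  rw [div_mul_eq_mul_div, div_le_div_iff₀ (by positivity) (by positivity)]
  have h4 : (0 : ℝ) < 4 + a := by positivity
  have h2 : ((a : ℝ) + 2 * s + v + 5) * (4 / 5) ^ a * (4 + a) ≤ 2 * ((s : ℝ) + v + 5) * (4 + a) := by
    calc ((a : ℝ) + 2 * s + v + 5) * (4 / 5) ^ a * (4 + a)
        = ((a : ℝ) + 2 * s + v + 5) * ((4 / 5) ^ a * (4 + a)) := by ring
      _ ≤ ((a : ℝ) + 2 * s + v + 5) * 4 := mul_le_mul_of_nonneg_left h1 (by positivity)
      _ ≤ _ := by nlinarith [mul_nonneg ha hs, mul_nonneg ha hv, mul_nonneg hs hv]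
  have h3 : ((a : ℝ) + 2 * s + v + 5) * (4 / 5) ^ a ≤ 2 * ((s : ℝ) + v + 5) :=
    le_of_mul_le_mul_right h2 h4
  have h5 : (0 : ℝ) < (v : ℝ) + 1 := by positivity
  calc ((a : ℝ) + 2 * s + v + 5) * (4 / 5) ^ a * ((v : ℝ) + 1)
      ≤ 2 * ((s : ℝ) + v + 5) * ((v : ℝ) + 1) := mul_le_mul_of_nonneg_right h3 h5.le
    _ = 2 * (((s : ℝ) + v + 5) * ((v : ℝ) + 1)) := by ring

/-- the bound of one row, without the power of `5/4` -/
noncomputable def Tb (a v s : ℕ) (e1 e δ : ℝ) : ℝ :=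
  zf a v s * SrP (a + s + 4) (s + v + 5) e1 e / (δ + v)

theorem Tb_nonneg {a v s : ℕ} {e1 e δ : ℝ} (h1 : 0 ≤ e1) (h2 : 0 ≤ e) (hδ : 0 < δ) :
    0 ≤ Tb a v s e1 e δ := by
  unfold Tb
  have := SrP_nonneg (m := a + s + 4) (i := s + v + 5) (by omega) (by omega) h1 h2
  have := zf_pos a v s
  positivity

theorem Tb_anti {a a' v s : ℕ} {e1 e δ : ℝ} (h : a ≤ a') (h1 : 0 ≤ e1) (h2 : 0 ≤ e) (hδ : 0 < δ) :
    Tb a' v s e1 e δ ≤ Tb a v s e1 e δ := by
  unfold Tb
  have h3 := zf_anti v s h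
  have h4 := SrP_anti (m := a' + s + 4) (n := a + s + 4) (i := s + v + 5) (by omega) (by omega)
    (by omega) h1 h2
  have h5 := SrP_nonneg (m := a' + s + 4) (i := s + v + 5) (by omega) (by omega) h1 h2
  exact div_le_div_of_nonneg_right (mul_le_mul h3 h4 h5 (zf_pos a v s).le) (by positivity)

theorem Tb_step {a v s : ℕ} {e1 e δ : ℝ} (hm : 15 ≤ a + s) (hv : 2 ≤ v) (hs : 7 ≤ s)
    (h1 : 0 ≤ e1) (h2 : 0 ≤ e) (hδ : 0 < δ) :
    Tb a (v + 1) s e1 e δ ≤ 8 / 9 * Tb a v s e1 e δ := by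
  unfold Tb
  have h3 := zf_v_le a v s
  have h4 := SrP_step (m := a + s + 4) (i := s + v + 5) (by omega) (by omega) h1 h2
  have h5 := SrP_nonneg (m := a + s + 4) (i := s + v + 5) (by omega) (by omega) h1 h2
  have h6 := SrP_nonneg (m := a + s + 4) (i := s + v + 5 + 1) (by omega) (by omega) h1 h2
  have h7 := zf_pos a v s
  have hv' : (2 : ℝ) ≤ v := by exact_mod_cast hv
  rw [show s + (v + 1) + 5 = s + v + 5 + 1 by ring]
  have h8 : (2 : ℝ) / ((v : ℝ) + 1) ≤ 2 / 3 := by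
    rw [div_le_div_iff₀ (by linarith) (by norm_num)]
    linarith
  have h9 : zf a (v + 1) s ≤ 2 / 3 * zf a v s :=
    h3.trans (by nlinarith)
  have h10 : zf a (v + 1) s * SrP (a + s + 4) (s + v + 5 + 1) e1 e ≤
      8 / 9 * (zf a v s * SrP (a + s + 4) (s + v + 5) e1 e) := by
    calc zf a (v + 1) s * SrP (a + s + 4) (s + v + 5 + 1) e1 e
        ≤ 2 / 3 * zf a v s * (4 / 3 * SrP (a + s + 4) (s + v + 5) e1 e) :=
          mul_le_mul h9 h4 h6 (by linarith)
      _ = _ := by ring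
  rw [← mul_div_assoc]
  push_cast
  refine div_le_div₀ ?_ h10 (by linarith) (by linarith)
  exact mul_nonneg (by norm_num) (mul_nonneg h7.le h5)

theorem Tb_ge_two {a v s : ℕ} {e1 e δ : ℝ} (hm : 15 ≤ a + s) (hv : 2 ≤ v) (hs : 7 ≤ s)
    (h1 : 0 ≤ e1) (h2 : 0 ≤ e) (hδ : 0 < δ) :
    Tb a v s e1 e δ ≤ (8 / 9) ^ (v - 2) * Tb a 2 s e1 e δ := by
  induction v, hv using Nat.le_induction with
  | base => simp
  | succ v hv ih =>
    rw [show v + 1 - 2 = v - 2 + 1 by omega, pow_succ]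
    have := Tb_step hm hv hs h1 h2 hδ
    linarith

/-! ### evaluation at `m = 19` -/

theorem k1_19 : k1R 19 = 55 / 16 := by unfold k1R; norm_num

theorem mu_19 {i : ℕ} (hi : i ≤ 32) : muR 19 i = 1 := by
  unfold muR
  refine max_eq_left ?_
  have : (i : ℝ) ≤ 32 := by exact_mod_cast hi
  rw [div_le_one (by norm_num)]
  push_cast
  linarith

end Pool.JM
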