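import Pool.Agent.Work.MP_46fa68_99.Far2

/-!
# MP_46fa68_co: the far rows, numbers (III): the tails and the three modes
-/

set_option autoImplicit false

open Finset

namespace Pool.JM

theorem pow_le_e (n k : ℕ) (hn : 1 ≤ n) (hk : k ≤ n) : (((n : ℝ) + 1) / n) ^ k ≤ 2.7183 := by
  have hn' : (1 : ℝ) ≤ n := by exact_mod_cast hn
  have h1 : ((n : ℝ) + 1) / n = 1 + 1 / n := by
    field_simp
  have h2 : (1 : ℝ) ≤ 1 + 1 / (n : ℝ) := by
    have : (0 : ℝ) ≤ 1 / (n : ℝ) := by positivity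
    linarith
  have h3 : (1 + 1 / (n : ℝ)) ^ n ≤ Real.exp 1 := by
    have h4 : 1 + 1 / (n : ℝ) ≤ Real.exp (1 / (n : ℝ)) := by
      have := Real.add_one_le_exp (1 / (n : ℝ))
      linarith
    calc (1 + 1 / (n : ℝ)) ^ n ≤ Real.exp (1 / (n : ℝ)) ^ n := pow_le_pow_left₀ (by linarith) h4 _
      _ = Real.exp 1 := by
        rw [← Real.exp_nat_mul]
        congr 1
        field_simp
  rw [h1]
  have h5 := Real.exp_one_lt_d9
  calc (1 + 1 / (n : ℝ)) ^ k ≤ (1 + 1 / (n : ℝ)) ^ n := pow_le_pow_right₀ h2 hk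
    _ ≤ Real.exp 1 := h3
    _ ≤ 2.7183 := by linarith

theorem SrP_crude {m i : ℕ} (hm : 19 ≤ m) (hi : 5 ≤ i) (him : i ≤ m + 3) {e1 e : ℝ} (h1 : 0 ≤ e1)
    (h2 : 0 ≤ e) : SrP m i e1 e ≤ 3.44 * e1 + 12.1 * e + 22.7 := by
  have hm' : (19 : ℝ) ≤ m := by exact_mod_cast hm
  have hi' : (5 : ℝ) ≤ i := by exact_mod_cast hi
  have him' : (i : ℝ) ≤ m + 3 := by exact_mod_cast him
  have c1 : k1R m ≤ 3.44 := by
    unfold k1R
    rw [div_le_iff₀ (by linarith)]
    linarith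
  have c2 : kBR m i ≤ 2.907 := by
    unfold kBR
    have e1 : 2 * ((m : ℝ) - 1) / ((m : ℝ) - 3) ≤ 2.25 := by
      rw [div_le_iff₀ (by linarith)]
      linarith
    have e2 : ((i : ℝ) - 1) * ((i : ℝ) - 2) / (2 * ((m : ℝ) - 3) * ((m : ℝ) + 1)) ≤ 0.657 := by
      rw [div_le_iff₀ (mul_pos (by linarith) (by linarith))]
      have : ((i : ℝ) - 1) * ((i : ℝ) - 2) ≤ ((m : ℝ) + 2) * ((m : ℝ) + 1) :=
        mul_le_mul (by linarith) (by linarith) (by linarith) (by linarith)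
      nlinarith
    linarith
  have c3 : kGR m i ≤ 2.7183 := by
    unfold kGR
    have := pow_le_e (m + 1) (i - 2) (by omega) (by omega)
    push_cast at this
    rwa [show (m : ℝ) + 1 + 1 = m + 2 by ring] at this
  have c4 : yR m i ≤ 2 := by
    unfold yR
    have : ((i - 5 : ℕ) : ℝ) / ((m : ℝ) + 1) ≤ 1 := by
      rw [div_le_one (by linarith)]
      have : ((i - 5 : ℕ) : ℝ) ≤ (m : ℝ) := by exact_mod_cast (by omega : i - 5 ≤ m)
      linarith
    linarith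
  have c5 : EyR m i ≤ 7.39 := by
    unfold EyR
    have := pow_le_e m (i - 5) (by omega) (by omega)
    nlinarith
  have c6 : muR m i = 1 := by
    unfold muR
    refine max_eq_left ?_
    rw [div_le_one (by linarith)]
    linarith
  have c7 : kER m i ≤ 4.2 := by
    have := ker_mono (yR_ge m i) c4 (EyR_ge (by omega) i) c5
    unfold kER
    linarith
  have b2 := kBR_nonneg (m := m) (i := i) (by omega) (by omega)
  have b3 := kGR_nonneg m i
  have b4 := yR_ge m i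
  have b5 := EyR_ge (m := m) (by omega) i
  have c8 : kBR m i * kGR m i ≤ 2.907 * 2.7183 := mul_le_mul c2 c3 b3 (by norm_num)
  have c9 : ((i : ℝ) - 2) / ((m : ℝ) + 1) ≤ 1 := by
    rw [div_le_one (by linarith)]
    linarith
  have b9 : 0 ≤ ((i : ℝ) - 2) / ((m : ℝ) + 1) := div_nonneg (by linarith) (by linarith)
  have b8 : 0 ≤ kBR m i * kGR m i := mul_nonneg b2 b3
  have d2 : k2R m i ≤ 12.103 := by
    unfold k2R
    rw [c6, one_mul]
    linarith
  have d2' : k2R m i ≤ 12.1 := by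
    unfold k2R
    rw [c6, one_mul]
    have : kER m i ≤ 4.196 := by
      have := ker_mono (yR_ge m i) c4 (EyR_ge (by omega) i) c5
      unfold kER
      linarith
    linarith
  have d0 : k0R m i ≤ 22.7 := by
    unfold k0R
    rw [c6, one_mul]
    have f1 : kBR m i * kGR m i * (((i : ℝ) - 2) / ((m : ℝ) + 1)) ≤ 2.907 * 2.7183 * 1 :=
      mul_le_mul c8 c9 b9 (by norm_num)
    have f2 : yR m i * EyR m i ≤ 2 * 7.39 := mul_le_mul c4 c5 (by linarith) (by norm_num)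
    linarith
  unfold SrP
  have g1 := mul_le_mul_of_nonneg_right c1 h1
  have g2 := mul_le_mul_of_nonneg_right d2' h2
  linarith

theorem zf_s_succ (a v s : ℕ) : zf a v (s + 1) =
    zf a v s * (((a : ℝ) + 2 * s + v + 6) * ((a : ℝ) + 2 * s + v + 5) /
      (((a : ℝ) + s + 1) * ((a : ℝ) + s + 5) * ((s : ℝ) + v + 5))) := by
  unfold zf zq
  rw [show a + 2 * (s + 1) + v + 4 = (a + 2 * s + v + 5) + 1 by ring,
    show a + (s + 1) + 4 = (a + s + 4) + 1 by ring, show a + (s + 1) = (a + s) + 1 by ring,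
    show s + 1 + v + 4 = (s + v + 4) + 1 by ring,
    Nat.factorial_succ (a + 2 * s + v + 5), Nat.factorial_succ (a + 2 * s + v + 4),
    Nat.factorial_succ (a + s + 4), Nat.factorial_succ (a + s), Nat.factorial_succ (s + v + 4)]
  push_cast
  have f1 : ((a + s).factorial : ℝ) ≠ 0 := by positivity
  have f2 : ((a + s + 4).factorial : ℝ) ≠ 0 := by positivity
  have f3 : ((s + v + 4).factorial : ℝ) ≠ 0 := by positivity
  have f4 : (v.factorial : ℝ) ≠ 0 := by positivity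
  field_simp
  ring

/-- the quantity of the tail -/
noncomputable def Xz (a v s : ℕ) : ℝ := zf a v s * 2 ^ s * ((s : ℝ) + 5)

theorem Xz_succ {a v s : ℕ} (ha : a ≤ 1) (hv : v ≤ 2) (hs : 15 ≤ s) : Xz a v (s + 1) ≤ Xz a v s := by
  unfold Xz
  rw [zf_s_succ, pow_succ]
  have h0 := zf_pos a v s
  have h2 : (0 : ℝ) < 2 ^ s := by positivity
  obtain ⟨k, rfl⟩ : ∃ k, s = k + 15 := ⟨s - 15, by omega⟩
  push_cast
  have hk : (0 : ℝ) ≤ k := by positivity
  have key : (((a : ℝ) + 2 * (k + 15) + v + 6) * ((a : ℝ) + 2 * (k + 15) + v + 5)) * 2 *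
      ((k : ℝ) + 15 + 1 + 5) ≤
      ((a : ℝ) + (k + 15) + 1) * ((a : ℝ) + (k + 15) + 5) * ((k : ℝ) + 15 + v + 5) * ((k : ℝ) + 15 + 5) := by
    have ha' : (a : ℝ) ≤ 1 := by exact_mod_cast ha
    have hv' : (v : ℝ) ≤ 2 := by exact_mod_cast hv
    have ha0 : (0 : ℝ) ≤ a := by positivity
    have hv0 : (0 : ℝ) ≤ v := by positivity
    have e1 : (((a : ℝ) + 2 * (k + 15) + v + 6) * ((a : ℝ) + 2 * (k + 15) + v + 5)) ≤
        (2 * k + 39) * (2 * k + 38) := mul_le_mul (by linarith) (by linarith) (by positivity) (by positivity)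
    have e2 : ((k : ℝ) + 16) * ((k : ℝ) + 20) * ((k : ℝ) + 20) ≤
        ((a : ℝ) + (k + 15) + 1) * ((a : ℝ) + (k + 15) + 5) * ((k : ℝ) + 15 + v + 5) :=
      mul_le_mul (mul_le_mul (by linarith) (by linarith) (by positivity) (by positivity)) (by linarith)
        (by positivity) (by positivity)
    have e3 : (2 * (k : ℝ) + 39) * (2 * k + 38) * 2 * (k + 21) ≤
        ((k : ℝ) + 16) * ((k : ℝ) + 20) * ((k : ℝ) + 20) * (k + 20) := by
      have h5 : ((k : ℝ) + 16) * ((k : ℝ) + 20) * ((k : ℝ) + 20) * (k + 20) -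
          (2 * (k : ℝ) + 39) * (2 * k + 38) * 2 * (k + 21) =
          k ^ 4 + 68 * k ^ 3 + 1684 * k ^ 2 + 17768 * k + 65756 := by ring
      have h6 : 0 ≤ (k : ℝ) ^ 4 + 68 * k ^ 3 + 1684 * k ^ 2 + 17768 * k + 65756 := by positivity
      linarith
    calc (((a : ℝ) + 2 * (k + 15) + v + 6) * ((a : ℝ) + 2 * (k + 15) + v + 5)) * 2 *
      ((k : ℝ) + 15 + 1 + 5) ≤ (2 * (k : ℝ) + 39) * (2 * k + 38) * 2 * (k + 21) := by
          rw [show (k : ℝ) + 15 + 1 + 5 = k + 21 by ring]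
          exact mul_le_mul_of_nonneg_right (mul_le_mul_of_nonneg_right e1 (by norm_num)) (by positivity)
      _ ≤ _ := e3
      _ ≤ _ := by
          rw [show (k : ℝ) + 15 + 5 = k + 20 by ring]
          exact mul_le_mul_of_nonneg_right e2 (by positivity)
  have hden : (0 : ℝ) < ((a : ℝ) + (k + 15) + 1) * ((a : ℝ) + (k + 15) + 5) * ((k : ℝ) + 15 + v + 5) := by
    positivity
  have h3 : (((a : ℝ) + 2 * (k + 15) + v + 6) * ((a : ℝ) + 2 * (k + 15) + v + 5) /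
      (((a : ℝ) + (k + 15) + 1) * ((a : ℝ) + (k + 15) + 5) * ((k : ℝ) + 15 + v + 5))) * 2 *
      ((k : ℝ) + 15 + 1 + 5) ≤ (k : ℝ) + 15 + 5 := by
    rw [div_mul_eq_mul_div, div_mul_eq_mul_div, div_le_iff₀ hden]
    calc _ ≤ _ := key
      _ = _ := by ring
  calc _ = zf a v (k + 15) * 2 ^ (k + 15) * ((((a : ℝ) + 2 * (k + 15) + v + 6) *
      ((a : ℝ) + 2 * (k + 15) + v + 5) /
      (((a : ℝ) + (k + 15) + 1) * ((a : ℝ) + (k + 15) + 5) * ((k : ℝ) + 15 + v + 5))) * 2 *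
      ((k : ℝ) + 15 + 1 + 5)) := by ring
    _ ≤ _ := mul_le_mul_of_nonneg_left h3 (mul_pos h0 h2).le

theorem Xz_le {a v s : ℕ} (ha : a ≤ 1) (hv : v ≤ 2) (hs : 15 ≤ s) : Xz a v s ≤ Xz a v 15 := by
  induction s, hs using Nat.le_induction with
  | base => exact le_rfl
  | succ s hs ih => exact (Xz_succ ha hv hs).trans ih

theorem Xz_one {v s : ℕ} (hv : v ≤ 2) (hs : 15 ≤ s) :
    zf 1 v s * 2 ^ s * ((s : ℝ) + 5) ≤ 16 / 10000 := by
  have h := Xz_le (a := 1) le_rfl hv hs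
  refine (show zf 1 v s * 2 ^ s * ((s : ℝ) + 5) = Xz 1 v s from rfl).le.trans (h.trans ?_)
  interval_cases v <;> norm_num [Xz, zf, zq, Nat.factorial]

theorem Xz_zero {v s : ℕ} (hv : v ≤ 2) (hs : 15 ≤ s) :
    zf 0 v s * 2 ^ s * ((s : ℝ) + 5) ≤ 176 / 10000 := by
  have h := Xz_le (a := 0) (by norm_num) hv hs
  refine (show zf 0 v s * 2 ^ s * ((s : ℝ) + 5) = Xz 0 v s from rfl).le.trans (h.trans ?_)
  interval_cases v <;> norm_num [Xz, zf, zq, Nat.factorial]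

end Pool.JM
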