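import Pool.Agent.Work.MP_46fa68_99.Far3

/-!
# MP_46fa68_co: the far rows, numbers (IV): one row in the three modes (`m ≥ 21`)
-/

set_option autoImplicit false

open Finset

namespace Pool.JM

theorem zf_v_le' {a : ℕ} (v s : ℕ) (ha : 1 ≤ a) :
    zf a (v + 1) s ≤ zf a v s * (8 / 5 / ((v : ℝ) + 1)) := by
  rw [zf_v_succ]
  have h0 := zf_pos a v s
  obtain ⟨k, rfl⟩ : ∃ k, a = k + 1 := ⟨a - 1, by omega⟩
  have h1 := bern k
  have hk : (0 : ℝ) ≤ k := by positivity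
  have hs : (0 : ℝ) ≤ s := by positivity
  have hv : (0 : ℝ) ≤ v := by positivity
  refine mul_le_mul_of_nonneg_left ?_ h0.le
  rw [div_mul_eq_mul_div, div_le_div_iff₀ (by positivity) (by positivity)]
  have h4 : (0 : ℝ) < 4 + k := by positivity
  have h2 : (((k + 1 : ℕ) : ℝ) + 2 * s + v + 5) * (4 / 5) ^ (k + 1) * (4 + k) ≤
      8 / 5 * ((s : ℝ) + v + 5) * (4 + k) := by
    push_cast
    calc ((k : ℝ) + 1 + 2 * s + v + 5) * (4 / 5) ^ (k + 1) * (4 + k)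
        = 4 / 5 * ((k : ℝ) + 1 + 2 * s + v + 5) * ((4 / 5) ^ k * (4 + k)) := by rw [pow_succ]; ring
      _ ≤ 4 / 5 * ((k : ℝ) + 1 + 2 * s + v + 5) * 4 := mul_le_mul_of_nonneg_left h1 (by positivity)
      _ ≤ _ := by nlinarith [mul_nonneg hk hs, mul_nonneg hk hv, mul_nonneg hs hv]
  have h3 : (((k + 1 : ℕ) : ℝ) + 2 * s + v + 5) * (4 / 5) ^ (k + 1) ≤ 8 / 5 * ((s : ℝ) + v + 5) :=
    le_of_mul_le_mul_right h2 h4
  have h5 : (0 : ℝ) < (v : ℝ) + 1 := by positivity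
  calc (((k + 1 : ℕ) : ℝ) + 2 * s + v + 5) * (4 / 5) ^ (k + 1) * ((v : ℝ) + 1)
      ≤ 8 / 5 * ((s : ℝ) + v + 5) * ((v : ℝ) + 1) := mul_le_mul_of_nonneg_right h3 h5.le
    _ = 8 / 5 * (((s : ℝ) + v + 5) * ((v : ℝ) + 1)) := by ring

theorem Tb_step' {a v s : ℕ} {e1 e δ : ℝ} (ha : 1 ≤ a) (hm : 15 ≤ a + s) (hv : 2 ≤ v) (hs : 7 ≤ s)
    (h1 : 0 ≤ e1) (h2 : 0 ≤ e) (hδ : 0 < δ) :
    Tb a (v + 1) s e1 e δ ≤ 32 / 45 * Tb a v s e1 e δ := by
  unfold Tb
  have h3 := zf_v_le' v s ha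
  have h4 := SrP_step (m := a + s + 4) (i := s + v + 5) (by omega) (by omega) h1 h2
  have h5 := SrP_nonneg (m := a + s + 4) (i := s + v + 5) (by omega) (by omega) h1 h2
  have h6 := SrP_nonneg (m := a + s + 4) (i := s + v + 5 + 1) (by omega) (by omega) h1 h2
  have h7 := zf_pos a v s
  have hv' : (2 : ℝ) ≤ v := by exact_mod_cast hv
  rw [show s + (v + 1) + 5 = s + v + 5 + 1 by ring]
  have h8 : (8 / 5 : ℝ) / ((v : ℝ) + 1) ≤ 8 / 15 := by
    rw [div_le_div_iff₀ (by linarith) (by norm_num)]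
    linarith
  have h9 : zf a (v + 1) s ≤ 8 / 15 * zf a v s :=
    h3.trans (by nlinarith)
  have h10 : zf a (v + 1) s * SrP (a + s + 4) (s + v + 5 + 1) e1 e ≤
      32 / 45 * (zf a v s * SrP (a + s + 4) (s + v + 5) e1 e) := by
    calc zf a (v + 1) s * SrP (a + s + 4) (s + v + 5 + 1) e1 e
        ≤ 8 / 15 * zf a v s * (4 / 3 * SrP (a + s + 4) (s + v + 5) e1 e) :=
          mul_le_mul h9 h4 h6 (by linarith)
      _ = _ := by ring
  rw [← mul_div_assoc]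
  push_cast
  refine div_le_div₀ ?_ h10 (by linarith) (by linarith)
  exact mul_nonneg (by norm_num) (mul_nonneg h7.le h5)

theorem Tb_ge_two' {a v s : ℕ} {e1 e δ : ℝ} (ha : 1 ≤ a) (hm : 15 ≤ a + s) (hv : 2 ≤ v) (hs : 7 ≤ s)
    (h1 : 0 ≤ e1) (h2 : 0 ≤ e) (hδ : 0 < δ) :
    Tb a v s e1 e δ ≤ (32 / 45) ^ (v - 2) * Tb a 2 s e1 e δ := by
  induction v, hv using Nat.le_induction with
  | base => simp
  | succ v hv ih =>
    rw [show v + 1 - 2 = v - 2 + 1 by omega, pow_succ]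
    have := Tb_step' ha hm hv hs h1 h2 hδ
    linarith

/-- the constant of the hook bound, by `s = m - 4 - a` -/
noncomputable def ηs (s : ℕ) : ℝ := if s ≤ 5 then 1 else if s = 6 then 21 / 20 else 14 / 5

theorem ηs_pos (s : ℕ) : 0 < ηs s := by
  unfold ηs
  split_ifs <;> norm_num

theorem ηs_le (s : ℕ) : ηs s ≤ 14 / 5 := by
  unfold ηs
  split_ifs <;> norm_num

/-- the bound by the row index -/
noncomputable def gv (t0 t1 t2 tz : ℝ) (v : ℕ) : ℝ :=
  (if v = 0 then t0 else if v = 1 then t1 else t2 * (32 / 45) ^ (v - 2)) + tz * (8 / 9) ^ (v - 2)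

theorem row_mode {a v s b w0 : ℕ} {e1 e δ t0 t1 t2 tz : ℝ} (hm : 17 ≤ a + s)
    (hv : 2 ≤ v → 7 ≤ s) (he1 : 0 ≤ e1) (he : 0 ≤ e) (hδ : 0 < δ)
    (hb : 1 ≤ a → b + v * a ≤ w0) (hb0 : a = 0 → b = 0)
    (ht0 : 0 ≤ t0) (ht1 : 0 ≤ t1) (ht2 : 0 ≤ t2) (htz : 0 ≤ tz)
    (A0 : v = 0 → 1 ≤ a → ηs s * (5 / 4) ^ w0 * Tb (max 1 (17 - s)) 0 s e1 e δ ≤ t0)
    (A1 : v = 1 → 1 ≤ a → ηs s * (5 / 4) ^ w0 * Tb (max 1 (17 - s)) 1 s e1 e δ ≤ t1)
    (A2 : 2 ≤ v → 1 ≤ a → ηs s * (5 / 4) ^ w0 * Tb (max 1 (17 - s)) 2 s e1 e δ ≤ t2)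
    (Z : 16 ≤ s → ∀ v', v' ≤ 2 → 14 / 5 * Tb 0 v' s e1 e δ ≤ tz) :
    ηs s * (5 / 4) ^ b * zq a v s * SrP (a + s + 4) (s + v + 5) e1 e / (δ + v) ≤
      gv t0 t1 t2 tz v := by
  have hη := ηs_pos s
  rcases Nat.eq_zero_or_pos a with rfl | ha
  · -- empty rows
    rw [hb0 rfl]
    have hs' : 16 ≤ s := by omega
    have e1' : ηs s * (5 / 4 : ℝ) ^ 0 * zq 0 v s * SrP (0 + s + 4) (s + v + 5) e1 e / (δ + v) =
        ηs s * Tb 0 v s e1 e δ := by
      unfold Tb zf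
      rw [Nat.mul_zero, pow_zero, pow_zero]
      ring
    rw [e1']
    have h2 := Tb_nonneg (a := 0) (v := v) (s := s) he1 he hδ
    have h3 : ηs s * Tb 0 v s e1 e δ ≤ 14 / 5 * Tb 0 v s e1 e δ :=
      mul_le_mul_of_nonneg_right (ηs_le s) h2
    have h4 : 14 / 5 * Tb 0 v s e1 e δ ≤ tz * (8 / 9) ^ (v - 2) := by
      rcases Nat.lt_or_ge v 2 with h | h
      · rw [show v - 2 = 0 by omega, pow_zero, mul_one]
        exact Z hs' v h.le
      · have h5 := Tb_ge_two (a := 0) (v := v) (s := s) (by omega) h (by omega) he1 he hδ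
        have h6 := Z hs' 2 le_rfl
        have h7 : (0 : ℝ) < (8 / 9) ^ (v - 2) := by positivity
        nlinarith
    unfold gv
    have h8 : (0 : ℝ) ≤ if v = 0 then t0 else if v = 1 then t1 else t2 * (32 / 45) ^ (v - 2) := by
      split_ifs
      · exact ht0
      · exact ht1
      · positivity
    linarith
  · -- nonempty rows
    have hw := hb ha
    have e1' : ηs s * (5 / 4 : ℝ) ^ b * zq a v s * SrP (a + s + 4) (s + v + 5) e1 e / (δ + v) =
        ηs s * (5 / 4) ^ (b + v * a) * Tb a v s e1 e δ := by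
      unfold Tb zf
      rw [pow_add]
      have : (5 / 4 : ℝ) ^ (v * a) * (4 / 5) ^ (v * a) = 1 := by
        rw [← mul_pow]
        norm_num
      calc _ = ηs s * (5 / 4 : ℝ) ^ b * zq a v s * SrP (a + s + 4) (s + v + 5) e1 e / (δ + v) * 1 := by
            ring
        _ = _ := by
            rw [← this]
            ring
    rw [e1']
    have h2 := Tb_nonneg (a := a) (v := v) (s := s) he1 he hδ
    have h3 : ηs s * (5 / 4 : ℝ) ^ (b + v * a) * Tb a v s e1 e δ ≤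
        ηs s * (5 / 4) ^ w0 * Tb a v s e1 e δ := by
      refine mul_le_mul_of_nonneg_right (mul_le_mul_of_nonneg_left ?_ hη.le) h2
      exact pow_le_pow_right₀ (by norm_num) hw
    refine h3.trans ?_
    have ha0 : max 1 (17 - s) ≤ a := max_le ha (by omega)
    have hc : (0 : ℝ) ≤ ηs s * (5 / 4) ^ w0 := by positivity
    have hz : 0 ≤ tz * (8 / 9) ^ (v - 2) := by positivity
    unfold gv
    rcases Nat.lt_or_ge v 2 with h | h
    · interval_cases v
      · rw [if_pos rfl]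
        have h5 := Tb_anti (v := 0) (s := s) ha0 he1 he hδ
        have h6 := A0 rfl ha
        have h7 := mul_le_mul_of_nonneg_left h5 hc
        linarith
      · rw [if_neg (by norm_num), if_pos rfl]
        have h5 := Tb_anti (v := 1) (s := s) ha0 he1 he hδ
        have h6 := A1 rfl ha
        have h7 := mul_le_mul_of_nonneg_left h5 hc
        linarith
    · rw [if_neg (by omega), if_neg (by omega)]
      have h4 := Tb_ge_two' (a := a) (v := v) (s := s) ha (by omega) h (hv h) he1 he hδ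
      have h5 := Tb_anti (v := 2) (s := s) ha0 he1 he hδ
      have h6 := A2 h ha
      have h7 := mul_le_mul_of_nonneg_left h5 hc
      have h8 : (0 : ℝ) < (32 / 45) ^ (v - 2) := by positivity
      have h9 := mul_le_mul_of_nonneg_left h4 hc
      have h10 : ηs s * (5 / 4) ^ w0 * Tb a 2 s e1 e δ ≤ t2 := h7.trans h6
      have h11 : ηs s * (5 / 4) ^ w0 * ((32 / 45) ^ (v - 2) * Tb a 2 s e1 e δ) ≤
          t2 * (32 / 45) ^ (v - 2) := by
        calc _ = (32 / 45) ^ (v - 2) * (ηs s * (5 / 4) ^ w0 * Tb a 2 s e1 e δ) := by ring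
          _ ≤ (32 / 45) ^ (v - 2) * t2 := mul_le_mul_of_nonneg_left h10 h8.le
          _ = _ := by ring
      linarith

/-- the sum over the row indices `≥ 2` -/
theorem sum_gv {t0 t1 t2 tz : ℝ} (h0 : 0 ≤ t0) (h1 : 0 ≤ t1) (h2 : 0 ≤ t2) (hz : 0 ≤ tz) (n : ℕ) :
    ∑ v ∈ range n, gv t0 t1 t2 tz v ≤ t0 + t1 + 45 / 13 * t2 + 11 * tz := by
  have key : ∀ n, ∑ v ∈ range (n + 2), gv t0 t1 t2 tz v =
      t0 + t1 + 45 / 13 * t2 * (1 - (32 / 45) ^ n) + tz * (2 + 9 * (1 - (8 / 9) ^ n)) := by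
    intro n
    induction n with
    | zero =>
      simp [sum_range_succ, gv]
      ring
    | succ n ih =>
      rw [show n + 1 + 2 = (n + 2) + 1 by ring, sum_range_succ, ih]
      unfold gv
      rw [if_neg (by omega), if_neg (by omega), Nat.add_sub_cancel, pow_succ, pow_succ]
      ring
  have hg : ∀ v, 0 ≤ gv t0 t1 t2 tz v := by
    intro v
    unfold gv
    have : (0 : ℝ) ≤ if v = 0 then t0 else if v = 1 then t1 else t2 * (32 / 45) ^ (v - 2) := by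
      split_ifs
      · exact h0
      · exact h1
      · positivity
    have : 0 ≤ tz * (8 / 9) ^ (v - 2) := by positivity
    linarith
  have h3 : ∑ v ∈ range n, gv t0 t1 t2 tz v ≤ ∑ v ∈ range (n + 2), gv t0 t1 t2 tz v :=
    sum_le_sum_of_subset_of_nonneg (range_subset_range.2 (by omega)) fun v _ _ => hg v
  rw [key n] at h3
  have h4 : (0 : ℝ) ≤ (32 / 45) ^ n := by positivity
  have h5 : (0 : ℝ) ≤ (8 / 9) ^ n := by positivity
  have h6 := mul_nonneg h2 h4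
  have h7 := mul_nonneg hz h5
  nlinarith

end Pool.JM
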