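import Pool.Agent.Work.MP_46fa68_99.Far4

/-!
# MP_46fa68_co: the far rows, numbers (V): the tables of the three modes
-/

set_option autoImplicit false

open Finset

namespace Pool.JM

theorem mu_21 {i : ℕ} (hi : i ≤ 36) : muR 21 i = 1 := by
  unfold muR
  refine max_eq_left ?_
  have : (i : ℝ) ≤ 36 := by exact_mod_cast hi
  rw [div_le_one (by norm_num)]
  push_cast
  linarith

/-! ### tables, `s ≤ 15` -/

theorem gen0 {s : ℕ} (h4 : 5 ≤ s) (h14 : s ≤ 15) :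
    ηs s * (5 / 4 : ℝ) ^ (2 * s + 5) * Tb (17 - s) 0 s ((s : ℝ) + 3) ((s : ℝ) + 4) 1 ≤
      627 / 10000 := by
  interval_cases s <;>
    norm_num [ηs, Tb, zf, zq, SrP, k1R, k2R, k0R, kBR, kGR, kER, EyR, yR, mu_21, Nat.factorial]

theorem gen1 {s : ℕ} (h4 : 4 ≤ s) (h14 : s ≤ 15) :
    ηs s * (5 / 4 : ℝ) ^ (2 * s + 5) * Tb (17 - s) 1 s ((s : ℝ) + 3) ((s : ℝ) + 4) 1 ≤
      128 / 10000 := by
  interval_cases s <;>
    norm_num [ηs, Tb, zf, zq, SrP, k1R, k2R, k0R, kBR, kGR, kER, EyR, yR, mu_21, Nat.factorial]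

theorem gen2 {s : ℕ} (h4 : 8 ≤ s) (h14 : s ≤ 15) :
    ηs s * (5 / 4 : ℝ) ^ (2 * s + 5) * Tb (17 - s) 2 s ((s : ℝ) + 3) ((s : ℝ) + 4) 1 ≤
      19 / 10000 := by
  interval_cases s <;>
    norm_num [ηs, Tb, zf, zq, SrP, k1R, k2R, k0R, kBR, kGR, kER, EyR, yR, mu_21, Nat.factorial]

theorem low0 {s : ℕ} (h4 : 5 ≤ s) (h14 : s ≤ 15) :
    ηs s * (5 / 4 : ℝ) ^ (s + 4) * Tb (17 - s) 0 s 2 3 ((s : ℝ) + 2) ≤
      198 / 10000 / (3 * s + 9) := by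
  interval_cases s <;>
    norm_num [ηs, Tb, zf, zq, SrP, k1R, k2R, k0R, kBR, kGR, kER, EyR, yR, mu_21, Nat.factorial]

theorem low1 {s : ℕ} (h4 : 4 ≤ s) (h14 : s ≤ 15) :
    ηs s * (5 / 4 : ℝ) ^ (s + 4) * Tb (17 - s) 1 s 2 3 ((s : ℝ) + 2) ≤
      99 / 10000 / (3 * s + 9) := by
  interval_cases s <;>
    norm_num [ηs, Tb, zf, zq, SrP, k1R, k2R, k0R, kBR, kGR, kER, EyR, yR, mu_21, Nat.factorial]

theorem low2 {s : ℕ} (h4 : 8 ≤ s) (h14 : s ≤ 15) :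
    ηs s * (5 / 4 : ℝ) ^ (s + 4) * Tb (17 - s) 2 s 2 3 ((s : ℝ) + 2) ≤
      2 / 10000 / (3 * s + 9) := by
  interval_cases s <;>
    norm_num [ηs, Tb, zf, zq, SrP, k1R, k2R, k0R, kBR, kGR, kER, EyR, yR, mu_21, Nat.factorial]

theorem bdy0 {s : ℕ} (h4 : 5 ≤ s) (h14 : s ≤ 15) :
    ηs s * (5 / 4 : ℝ) ^ (s + 1) * Tb (17 - s) 0 s (205 / 100) (164 / 100) ((s : ℝ) + 5) ≤
      13 / 10000 * (3 / 4) ^ (s + 1) := by
  interval_cases s <;>
    norm_num [ηs, Tb, zf, zq, SrP, k1R, k2R, k0R, kBR, kGR, kER, EyR, yR, mu_21, Nat.factorial]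

theorem bdy1 {s : ℕ} (h4 : 4 ≤ s) (h14 : s ≤ 15) :
    ηs s * (5 / 4 : ℝ) ^ (s + 1) * Tb (17 - s) 1 s (205 / 100) (164 / 100) ((s : ℝ) + 5) ≤
      55 / 100000 * (3 / 4) ^ (s + 1) := by
  interval_cases s <;>
    norm_num [ηs, Tb, zf, zq, SrP, k1R, k2R, k0R, kBR, kGR, kER, EyR, yR, mu_21, Nat.factorial]

theorem bdy2 {s : ℕ} (h4 : 8 ≤ s) (h14 : s ≤ 15) :
    ηs s * (5 / 4 : ℝ) ^ (s + 1) * Tb (17 - s) 2 s (205 / 100) (164 / 100) ((s : ℝ) + 5) ≤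
      7 / 100000 * (3 / 4) ^ (s + 1) := by
  interval_cases s <;>
    norm_num [ηs, Tb, zf, zq, SrP, k1R, k2R, k0R, kBR, kGR, kER, EyR, yR, mu_21, Nat.factorial]

/-! ### the tails -/

theorem Tb_tail {a v s : ℕ} {e1 e δ : ℝ} (ha : a ≤ 1) (hm : 15 ≤ a + s) (hv : v ≤ 2)
    (h1 : 0 ≤ e1) (h2 : 0 ≤ e) (hδ : 0 < δ) :
    Tb a v s e1 e δ ≤ zf a v s * (3.44 * e1 + 12.1 * e + 22.7) / (δ + v) := by
  unfold Tb
  have h := SrP_crude (m := a + s + 4) (i := s + v + 5) (by omega) (by omega) (by omega) h1 h2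
  exact div_le_div_of_nonneg_right (mul_le_mul_of_nonneg_left h (zf_pos a v s).le) (by positivity)

theorem two_pow_le {q : ℝ} {s : ℕ} (hq : 0 ≤ q) (hq1 : q ≤ 1) (hs : 15 ≤ s) : q ^ s ≤ q ^ 15 :=
  pow_le_pow_of_le_one hq hq1 hs

theorem ηs_big {s : ℕ} (hs : 7 ≤ s) : ηs s = 14 / 5 := by
  unfold ηs
  rw [if_neg (by omega), if_neg (by omega)]

theorem gen_tail {v s : ℕ} (hv : v ≤ 2) (hs : 16 ≤ s) :
    ηs s * (5 / 4 : ℝ) ^ (2 * s + 5) * Tb (max 1 (17 - s)) v s ((s : ℝ) + 3) ((s : ℝ) + 4) 1 ≤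
      55 / 10000 / (1 + v) := by
  have hs0 : (15 : ℝ) ≤ s := by exact_mod_cast (by omega : 15 ≤ s)
  have hv0 : (0 : ℝ) ≤ v := by positivity
  rw [show max 1 (17 - s) = 1 by omega, ηs_big (by omega)]
  have h1 := Tb_tail (a := 1) (v := v) (s := s) (e1 := (s : ℝ) + 3) (e := (s : ℝ) + 4) (δ := 1)
    le_rfl (by omega) hv (by linarith) (by linarith) one_pos
  have h2 := Xz_one hv (by omega : 15 ≤ s)
  have h3 := zf_pos 1 v s
  have h4 : zf 1 v s * (3.44 * ((s : ℝ) + 3) + 12.1 * ((s : ℝ) + 4) + 22.7) ≤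
      16.3 * (zf 1 v s * ((s : ℝ) + 5)) := by nlinarith
  have h5 : (5 / 4 : ℝ) ^ (2 * s + 5) = (5 / 4) ^ 5 * ((25 / 32) ^ s * 2 ^ s) := by
    rw [← mul_pow, pow_add, pow_mul]
    norm_num
    ring
  have h6 := two_pow_le (q := 25 / 32) (by norm_num) (by norm_num) (by omega : 15 ≤ s)
  have h7 : (0 : ℝ) < 2 ^ s := by positivity
  have hv1 : (0 : ℝ) < 1 + v := by linarith
  rw [le_div_iff₀ hv1]
  have h8 : Tb 1 v s ((s : ℝ) + 3) ((s : ℝ) + 4) 1 * (1 + v) ≤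
      16.3 * (zf 1 v s * ((s : ℝ) + 5)) := by
    rw [← le_div_iff₀ hv1]
    exact h1.trans (div_le_div_of_nonneg_right h4 hv1.le)
  have h9 : 0 ≤ zf 1 v s * ((s : ℝ) + 5) := by positivity
  calc 14 / 5 * (5 / 4 : ℝ) ^ (2 * s + 5) * Tb 1 v s ((s : ℝ) + 3) ((s : ℝ) + 4) 1 * (1 + v)
      = 14 / 5 * (5 / 4 : ℝ) ^ (2 * s + 5) * (Tb 1 v s ((s : ℝ) + 3) ((s : ℝ) + 4) 1 * (1 + v)) := by
        ring
    _ ≤ 14 / 5 * (5 / 4 : ℝ) ^ (2 * s + 5) * (16.3 * (zf 1 v s * ((s : ℝ) + 5))) :=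
        mul_le_mul_of_nonneg_left h8 (by positivity)
    _ = 14 / 5 * (5 / 4) ^ 5 * 16.3 * ((25 / 32) ^ s * (zf 1 v s * 2 ^ s * ((s : ℝ) + 5))) := by
        rw [h5]
        ring
    _ ≤ 14 / 5 * (5 / 4) ^ 5 * 16.3 * ((25 / 32) ^ 15 * (16 / 10000)) := by
        refine mul_le_mul_of_nonneg_left ?_ (by norm_num)
        exact mul_le_mul h6 h2 (by positivity) (by positivity)
    _ ≤ 55 / 10000 := by norm_num

theorem low_tail {v s : ℕ} (hv : v ≤ 2) (hs : 16 ≤ s) :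
    ηs s * (5 / 4 : ℝ) ^ (s + 4) * Tb (max 1 (17 - s)) v s 2 3 ((s : ℝ) + 2) ≤
      2 / 10000 / (3 * s + 9) := by
  have hs0 : (15 : ℝ) ≤ s := by exact_mod_cast (by omega : 15 ≤ s)
  have hv0 : (0 : ℝ) ≤ v := by positivity
  rw [show max 1 (17 - s) = 1 by omega, ηs_big (by omega)]
  have h1 := Tb_tail (a := 1) (v := v) (s := s) (e1 := 2) (e := 3) (δ := (s : ℝ) + 2)
    le_rfl (by omega) hv (by norm_num) (by norm_num) (by linarith)
  have h2 := Xz_one hv (by omega : 15 ≤ s)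
  have h3 := zf_pos 1 v s
  have h5 : (5 / 4 : ℝ) ^ (s + 4) = (5 / 4) ^ 4 * ((5 / 8) ^ s * 2 ^ s) := by
    rw [← mul_pow, pow_add]
    norm_num
    ring
  have h6 := two_pow_le (q := 5 / 8) (by norm_num) (by norm_num) (by omega : 15 ≤ s)
  have h7 : (0 : ℝ) < 2 ^ s := by positivity
  have hd : (0 : ℝ) < 3 * s + 9 := by linarith
  rw [le_div_iff₀ hd]
  have h8 : Tb 1 v s 2 3 ((s : ℝ) + 2) * (3 * s + 9) ≤
      3.6 * (zf 1 v s * 65.9) := by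
    have e : (3 : ℝ) * s + 9 ≤ 3.6 * ((s : ℝ) + 2 + v) := by linarith
    have hd2 : (0 : ℝ) < (s : ℝ) + 2 + v := by linarith
    have h1' : Tb 1 v s 2 3 ((s : ℝ) + 2) ≤ zf 1 v s * 65.9 / ((s : ℝ) + 2 + v) := by
      refine h1.trans (div_le_div_of_nonneg_right ?_ hd2.le)
      refine mul_le_mul_of_nonneg_left (by norm_num) h3.le
    calc Tb 1 v s 2 3 ((s : ℝ) + 2) * (3 * s + 9)
        ≤ zf 1 v s * 65.9 / ((s : ℝ) + 2 + v) * (3.6 * ((s : ℝ) + 2 + v)) :=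
          mul_le_mul h1' e hd.le (by positivity)
      _ = 3.6 * (zf 1 v s * 65.9) := by
        field_simp
  have h10 : zf 1 v s * 2 ^ s ≤ 16 / 10000 := by
    have : 0 < zf 1 v s * 2 ^ s := mul_pos h3 h7
    nlinarith
  calc 14 / 5 * (5 / 4 : ℝ) ^ (s + 4) * Tb 1 v s 2 3 ((s : ℝ) + 2) * (3 * s + 9)
      = 14 / 5 * (5 / 4 : ℝ) ^ (s + 4) * (Tb 1 v s 2 3 ((s : ℝ) + 2) * (3 * s + 9)) := by
        ring
    _ ≤ 14 / 5 * (5 / 4 : ℝ) ^ (s + 4) * (3.6 * (zf 1 v s * 65.9)) :=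
        mul_le_mul_of_nonneg_left h8 (by positivity)
    _ = 14 / 5 * (5 / 4) ^ 4 * 3.6 * 65.9 * ((5 / 8) ^ s * (zf 1 v s * 2 ^ s)) := by
        rw [h5]
        ring
    _ ≤ 14 / 5 * (5 / 4) ^ 4 * 3.6 * 65.9 * ((5 / 8) ^ 15 * (16 / 10000 / 20)) := by
        refine mul_le_mul_of_nonneg_left ?_ (by norm_num)
        refine mul_le_mul h6 ?_ (by positivity) (by positivity)
        rw [le_div_iff₀ (by norm_num)]
        refine le_trans ?_ h2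
        exact mul_le_mul_of_nonneg_left (by linarith) (by positivity)
    _ ≤ 2 / 10000 := by norm_num

theorem bdy_tail {v s : ℕ} (hv : v ≤ 2) (hs : 16 ≤ s) :
    ηs s * (5 / 4 : ℝ) ^ (s + 1) * Tb (max 1 (17 - s)) v s (205 / 100) (164 / 100) ((s : ℝ) + 5) ≤
      7 / 100000 * (3 / 4) ^ (s + 1) := by
  have hs0 : (15 : ℝ) ≤ s := by exact_mod_cast (by omega : 15 ≤ s)
  have hv0 : (0 : ℝ) ≤ v := by positivity
  rw [show max 1 (17 - s) = 1 by omega, ηs_big (by omega)]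
  have h1 := Tb_tail (a := 1) (v := v) (s := s) (e1 := 205 / 100) (e := 164 / 100) (δ := (s : ℝ) + 5)
    le_rfl (by omega) hv (by norm_num) (by norm_num) (by linarith)
  have h2 := Xz_one hv (by omega : 15 ≤ s)
  have h3 := zf_pos 1 v s
  have h5 : (5 / 4 : ℝ) ^ (s + 1) = (5 / 4) * ((5 / 6) ^ s * 2 ^ s * (3 / 4) ^ s) := by
    rw [← mul_pow, ← mul_pow, pow_succ]
    norm_num
    ring
  have h6 := two_pow_le (q := 5 / 6) (by norm_num) (by norm_num) (by omega : 15 ≤ s)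
  have h7 : (0 : ℝ) < 2 ^ s := by positivity
  have h9 : (0 : ℝ) < (3 / 4) ^ s := by positivity
  have h8 : Tb 1 v s (205 / 100) (164 / 100) ((s : ℝ) + 5) ≤ zf 1 v s * 49.6 / 20 := by
    refine h1.trans ?_
    refine div_le_div₀ (by positivity) ?_ (by norm_num) (by linarith)
    refine mul_le_mul_of_nonneg_left (by norm_num) h3.le
  calc 14 / 5 * (5 / 4 : ℝ) ^ (s + 1) * Tb 1 v s (205 / 100) (164 / 100) ((s : ℝ) + 5)
      ≤ 14 / 5 * (5 / 4 : ℝ) ^ (s + 1) * (zf 1 v s * 49.6 / 20) :=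
        mul_le_mul_of_nonneg_left h8 (by positivity)
    _ = 14 / 5 * (5 / 4) * 49.6 / 20 * ((5 / 6) ^ s * (zf 1 v s * 2 ^ s)) * (3 / 4) ^ s := by
        rw [h5]
        ring
    _ ≤ 14 / 5 * (5 / 4) * 49.6 / 20 * ((5 / 6) ^ 15 * (16 / 10000 / 20)) * (3 / 4) ^ s := by
        refine mul_le_mul_of_nonneg_right (mul_le_mul_of_nonneg_left ?_ (by norm_num)) h9.le
        refine mul_le_mul h6 ?_ (by positivity) (by positivity)
        rw [le_div_iff₀ (by norm_num)]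
        refine le_trans ?_ h2
        exact mul_le_mul_of_nonneg_left (by linarith) (by positivity)
    _ ≤ 7 / 100000 * (3 / 4) ^ (s + 1) := by
        rw [pow_succ (3 / 4 : ℝ) s]
        nlinarith

/-! ### the empty rows -/

theorem gen_zero {v s : ℕ} (hv : v ≤ 2) (hs : 16 ≤ s) :
    14 / 5 * Tb 0 v s ((s : ℝ) + 3) ((s : ℝ) + 4) 1 ≤ 3 / 100000 := by
  have hs0 : (16 : ℝ) ≤ s := by exact_mod_cast hs
  have hv0 : (0 : ℝ) ≤ v := by positivity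
  have h1 := Tb_tail (a := 0) (v := v) (s := s) (e1 := (s : ℝ) + 3) (e := (s : ℝ) + 4) (δ := 1)
    (by norm_num) (by omega) hv (by linarith) (by linarith) one_pos
  have h2 := Xz_zero hv (by omega : 15 ≤ s)
  have h3 := zf_pos 0 v s
  have h4 : zf 0 v s * (3.44 * ((s : ℝ) + 3) + 12.1 * ((s : ℝ) + 4) + 22.7) / (1 + v) ≤
      16.3 * (zf 0 v s * ((s : ℝ) + 5)) := by
    refine (div_le_self (by positivity) (by linarith)).trans ?_
    nlinarith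
  have h6 := two_pow_le (q := 1 / 2) (by norm_num) (by norm_num) (by omega : 15 ≤ s)
  have h7 : (0 : ℝ) < 2 ^ s := by positivity
  have h8 : zf 0 v s * ((s : ℝ) + 5) = (1 / 2) ^ s * (zf 0 v s * 2 ^ s * ((s : ℝ) + 5)) := by
    rw [one_div, inv_pow]
    field_simp
  have h9 : zf 0 v s * ((s : ℝ) + 5) ≤ (1 / 2) ^ 15 * (176 / 10000) := by
    rw [h8]
    exact mul_le_mul h6 h2 (by positivity) (by positivity)
  have h10 : Tb 0 v s ((s : ℝ) + 3) ((s : ℝ) + 4) 1 ≤ 16.3 * ((1 / 2) ^ 15 * (176 / 10000)) :=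
    h1.trans (h4.trans (by linarith))
  norm_num at h10
  linarith

theorem low_zero {v s : ℕ} (hv : v ≤ 2) (hs : 16 ≤ s) :
    14 / 5 * Tb 0 v s 2 3 ((s : ℝ) + 2) ≤ 2 / 100000 / (3 * s + 9) := by
  have hs0 : (16 : ℝ) ≤ s := by exact_mod_cast hs
  have hv0 : (0 : ℝ) ≤ v := by positivity
  have h1 := Tb_tail (a := 0) (v := v) (s := s) (e1 := 2) (e := 3) (δ := (s : ℝ) + 2)
    (by norm_num) (by omega) hv (by norm_num) (by norm_num) (by linarith)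
  have h2 := Xz_zero hv (by omega : 15 ≤ s)
  have h3 := zf_pos 0 v s
  have h6 := two_pow_le (q := 1 / 2) (by norm_num) (by norm_num) (by omega : 15 ≤ s)
  have h7 : (0 : ℝ) < 2 ^ s := by positivity
  have h8 : zf 0 v s * ((s : ℝ) + 5) = (1 / 2) ^ s * (zf 0 v s * 2 ^ s * ((s : ℝ) + 5)) := by
    rw [one_div, inv_pow]
    field_simp
  have h9 : zf 0 v s * ((s : ℝ) + 5) ≤ (1 / 2) ^ 15 * (176 / 10000) := by
    rw [h8]
    exact mul_le_mul h6 h2 (by positivity) (by positivity)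
  have hd : (0 : ℝ) < 3 * s + 9 := by linarith
  rw [le_div_iff₀ hd]
  have hd2 : (0 : ℝ) < (s : ℝ) + 2 + v := by linarith
  have h1' : Tb 0 v s 2 3 ((s : ℝ) + 2) ≤ zf 0 v s * 65.9 / ((s : ℝ) + 2 + v) := by
    refine h1.trans (div_le_div_of_nonneg_right ?_ hd2.le)
    refine mul_le_mul_of_nonneg_left (by norm_num) h3.le
  have e : (3 : ℝ) * s + 9 ≤ 3.6 * ((s : ℝ) + 2 + v) := by linarith
  have h10 : Tb 0 v s 2 3 ((s : ℝ) + 2) * (3 * s + 9) ≤ 3.6 * (zf 0 v s * 65.9) := by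
    calc Tb 0 v s 2 3 ((s : ℝ) + 2) * (3 * s + 9)
        ≤ zf 0 v s * 65.9 / ((s : ℝ) + 2 + v) * (3.6 * ((s : ℝ) + 2 + v)) :=
          mul_le_mul h1' e hd.le (by positivity)
      _ = 3.6 * (zf 0 v s * 65.9) := by
        field_simp
  have h11 : zf 0 v s * 20 ≤ (1 / 2) ^ 15 * (176 / 10000) := by
    refine le_trans ?_ h9
    exact mul_le_mul_of_nonneg_left (by linarith) h3.le
  norm_num at h11
  nlinarith

theorem bdy_zero {v s : ℕ} (hv : v ≤ 2) (hs : 16 ≤ s) :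
    14 / 5 * Tb 0 v s (205 / 100) (164 / 100) ((s : ℝ) + 5) ≤ 2 / 100000 * (3 / 4) ^ (s + 1) := by
  have hs0 : (16 : ℝ) ≤ s := by exact_mod_cast hs
  have hv0 : (0 : ℝ) ≤ v := by positivity
  have h1 := Tb_tail (a := 0) (v := v) (s := s) (e1 := 205 / 100) (e := 164 / 100) (δ := (s : ℝ) + 5)
    (by norm_num) (by omega) hv (by norm_num) (by norm_num) (by linarith)
  have h2 := Xz_zero hv (by omega : 15 ≤ s)
  have h3 := zf_pos 0 v s
  have h6 := two_pow_le (q := 2 / 3) (by norm_num) (by norm_num) (by omega : 15 ≤ s)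
  have h7 : (0 : ℝ) < 2 ^ s := by positivity
  have h9' : (0 : ℝ) < (3 / 4) ^ s := by positivity
  have h8 : Tb 0 v s (205 / 100) (164 / 100) ((s : ℝ) + 5) ≤ zf 0 v s * 49.6 / 20 := by
    refine h1.trans ?_
    refine div_le_div₀ (by positivity) ?_ (by norm_num) (by linarith)
    refine mul_le_mul_of_nonneg_left (by norm_num) h3.le
  have h5 : (1 : ℝ) = (2 / 3) ^ s * 2 ^ s * (3 / 4) ^ s := by
    rw [← mul_pow, ← mul_pow]
    norm_num
  have h10 : zf 0 v s ≤ (2 / 3) ^ 15 * (176 / 10000 / 20) * (3 / 4) ^ s := by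
    calc zf 0 v s = zf 0 v s * 1 := (mul_one _).symm
      _ = ((2 / 3) ^ s * (zf 0 v s * 2 ^ s)) * (3 / 4) ^ s := by
          rw [h5]
          ring
      _ ≤ ((2 / 3) ^ 15 * (176 / 10000 / 20)) * (3 / 4) ^ s := by
          refine mul_le_mul_of_nonneg_right ?_ h9'.le
          refine mul_le_mul h6 ?_ (by positivity) (by positivity)
          rw [le_div_iff₀ (by norm_num)]
          refine le_trans ?_ h2
          exact mul_le_mul_of_nonneg_left (by linarith) (by positivity)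
  rw [pow_succ (3 / 4 : ℝ) s]
  norm_num at h10
  nlinarith

end Pool.JM
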