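import Mathlib

/-!
# MP_46fa68_co: the hook bound

`x! / ∏_{y ∈ L} (x - y)` (the product of the hooks of the row of the bead `x`, `L` = the smaller beads) is at
most `(14/5) a! (5/4)^b`, `a` = length of the row, `b` = number of boxes below the row.
-/

set_option autoImplicit false

open Finset

namespace Pool.JM

/-- the tangent function of the hook bound -/
noncomputable def hft (h : ℕ) : ℝ := (h : ℝ) * (4 / 5) ^ h

theorem hft_nonneg (h : ℕ) : 0 ≤ hft h := by unfold hft; positivity

theorem hft_succ_le {h : ℕ} (hh : 4 ≤ h) : hft (h + 1) ≤ hft h := by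
  unfold hft
  rw [pow_succ]
  have h1 : (4 : ℝ) ≤ h := by exact_mod_cast hh
  have h2 : (0 : ℝ) < (4 / 5) ^ h := by positivity
  push_cast
  nlinarith

theorem hft_anti {h k : ℕ} (hh : 4 ≤ h) (hk : h ≤ k) : hft k ≤ hft h := by
  induction k, hk using Nat.le_induction with
  | base => exact le_rfl
  | succ k hk ih => exact (hft_succ_le (by omega)).trans ih

theorem hft_le_four (h : ℕ) : hft h ≤ hft 4 := by
  rcases Nat.lt_or_ge h 4 with h1 | h1
  · interval_cases h <;> (unfold hft; norm_num)
  · exact hft_anti le_rfl h1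

theorem prod_hft_le (a : ℕ) : ∀ G : Finset ℕ, (∀ h ∈ G, 1 ≤ h) → G.card = a →
    ∏ h ∈ G, hft h ≤ 14 / 5 * ∏ h ∈ range a, hft (h + 1) := by
  induction a with
  | zero =>
    intro G _ hc
    rw [card_eq_zero] at hc
    subst hc
    simp
    norm_num
  | succ a ih =>
    intro G hG hc
    rcases Nat.lt_or_ge a 3 with ha | ha
    · -- small rows
      have h1 : ∏ h ∈ G, hft h ≤ hft 4 ^ (a + 1) := by
        rw [← hc, ← prod_const]
        exact prod_le_prod (fun h _ => hft_nonneg h) fun h _ => hft_le_four h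
      refine h1.trans ?_
      interval_cases a <;> (simp [prod_range_succ, hft]; norm_num)
    · -- remove the largest hook
      have hne : G.Nonempty := by
        rw [← card_pos]; omega
      set M := G.max' hne with hM
      have hMG : M ∈ G := G.max'_mem hne
      have hMa : a + 1 ≤ M := by
        have h2 : G ⊆ Icc 1 M := fun h hh => mem_Icc.2 ⟨hG h hh, G.le_max' h hh⟩
        have h3 := card_le_card h2
        rw [Nat.card_Icc, hc] at h3
        omega
      rw [← mul_prod_erase G hft hMG, prod_range_succ]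
      have h4 := ih (G.erase M) (fun h hh => hG h (mem_of_mem_erase hh))
        (by rw [card_erase_of_mem hMG, hc]; rfl)
      have h5 : hft M ≤ hft (a + 1) := hft_anti (by omega) hMa
      calc hft M * ∏ h ∈ G.erase M, hft h
          ≤ hft (a + 1) * (14 / 5 * ∏ h ∈ range a, hft (h + 1)) :=
            mul_le_mul h5 h4 (prod_nonneg fun h _ => hft_nonneg h) (hft_nonneg _)
        _ = 14 / 5 * ((∏ h ∈ range a, hft (h + 1)) * hft (a + 1)) := by ring

/-- **the hook bound**, as a statement on a set of distinct positive integers -/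
theorem prod_hooks_le {G : Finset ℕ} {a b : ℕ} (hG : ∀ h ∈ G, 1 ≤ h) (hc : G.card = a)
    (hb : ∑ h ∈ G, h = ∑ h ∈ range a, (h + 1) + b) :
    ∏ h ∈ G, (h : ℝ) ≤ 14 / 5 * a.factorial * (5 / 4) ^ b := by
  have h1 := prod_hft_le a G hG hc
  have h2 : ∏ h ∈ G, hft h = (∏ h ∈ G, (h : ℝ)) * (4 / 5) ^ (∑ h ∈ G, h) := by
    unfold hft
    rw [prod_mul_distrib, prod_pow_eq_pow_sum]
  have h3 : ∏ h ∈ range a, hft (h + 1) = (a.factorial : ℝ) * (4 / 5) ^ (∑ h ∈ range a, (h + 1)) := by
    unfold hft
    rw [prod_mul_distrib, prod_pow_eq_pow_sum]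
    congr 1
    rw [← prod_range_add_one_eq_factorial]
    push_cast
    rfl
  rw [h2, h3, hb, pow_add] at h1
  have h4 : (0 : ℝ) < (4 / 5) ^ (∑ h ∈ range a, (h + 1)) := by positivity
  have h5 : (0 : ℝ) < (4 / 5) ^ b := by positivity
  have h6 : (∏ h ∈ G, (h : ℝ)) * (4 / 5) ^ b ≤ 14 / 5 * a.factorial := by
    by_contra hcon
    rw [not_le] at hcon
    have := mul_lt_mul_of_pos_right hcon h4
    nlinarith
  have h7 : (5 / 4 : ℝ) ^ b = ((4 / 5) ^ b)⁻¹ := by
    rw [← inv_pow]
    norm_num
  rw [h7, ← div_eq_mul_inv, le_div_iff₀ h5]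
  exact h6

/-- the product of the hooks: `x! / ∏_{y ∈ L} (x - y)` is the product over the holes -/
theorem fact_eq_holes {L : Finset ℕ} {x : ℕ} (hL : ∀ y ∈ L, y < x) :
    (x.factorial : ℝ) = (∏ y ∈ L, ((x : ℝ) - y)) * ∏ z ∈ range x \ L, ((x - z : ℕ) : ℝ) := by
  have hsub : L ⊆ range x := fun y hy => mem_range.2 (hL y hy)
  have h1 : ∏ y ∈ L, ((x : ℝ) - y) = ∏ y ∈ L, ((x - y : ℕ) : ℝ) :=
    prod_congr rfl fun y hy => by rw [Nat.cast_sub (hL y hy).le]
  rw [h1, mul_comm, prod_sdiff hsub]
  have h2 : ∏ y ∈ range x, ((x - y : ℕ) : ℝ) = ((∏ y ∈ range x, (x - y) : ℕ) : ℝ) := by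
    push_cast
    rfl
  rw [h2]
  congr 1
  rw [← prod_range_add_one_eq_factorial, ← prod_range_reflect (fun k => k + 1) x]
  refine prod_congr rfl fun y hy => ?_
  rw [mem_range] at hy
  omega

/-- **the hook bound in bead language** -/
theorem hook_le {L : Finset ℕ} {x a b : ℕ} (hL : ∀ y ∈ L, y < x) (ha : L.card + a = x)
    (hb : ∑ y ∈ L, y = ∑ y ∈ range L.card, y + b) :
    (x.factorial : ℝ) / ∏ y ∈ L, ((x : ℝ) - y) ≤ 14 / 5 * a.factorial * (5 / 4) ^ b := by
  have hsub : L ⊆ range x := fun y hy => mem_range.2 (hL y hy)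
  have hpos : 0 < ∏ y ∈ L, ((x : ℝ) - y) := prod_pos fun y hy => by
    have : (y : ℝ) < x := by exact_mod_cast hL y hy
    linarith
  rw [fact_eq_holes hL, mul_div_cancel_left₀ _ hpos.ne']
  -- the hooks
  have hinj : Set.InjOn (fun z => x - z) (range x \ L : Finset ℕ) := by
    intro z hz z' hz' h
    have h1 := mem_range.1 (mem_sdiff.1 (mem_coe.1 hz)).1
    have h2 := mem_range.1 (mem_sdiff.1 (mem_coe.1 hz')).1
    simp only at h
    omega
  have hprod : ∏ z ∈ range x \ L, ((x - z : ℕ) : ℝ) =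
      ∏ h ∈ (range x \ L).image (fun z => x - z), (h : ℝ) := by
    rw [prod_image hinj]
  rw [hprod]
  have hcard : (range x \ L).card = a := by
    rw [card_sdiff_of_subset hsub, card_range]
    omega
  refine prod_hooks_le ?_ ?_ ?_
  · intro h hh
    rw [mem_image] at hh
    obtain ⟨z, hz, rfl⟩ := hh
    have := mem_range.1 (mem_sdiff.1 hz).1
    omega
  · rw [card_image_of_injOn hinj, hcard]
  · rw [sum_image hinj]
    -- count
    have e1 : ∑ z ∈ range x \ L, (x - z) + ∑ y ∈ L, (x - y) = ∑ z ∈ range x, (x - z) :=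
      sum_sdiff hsub
    have e2 : ∑ z ∈ range x, (x - z) = ∑ z ∈ range x, (z + 1) := by
      rw [← sum_range_reflect (fun k => k + 1) x]
      refine sum_congr rfl fun y hy => ?_
      rw [mem_range] at hy
      omega
    have e3 : ∑ y ∈ L, (x - y) + ∑ y ∈ L, y = L.card * x := by
      rw [← sum_add_distrib, sum_congr rfl (g := fun _ => x), sum_const, smul_eq_mul]
      intro y hy
      have := hL y hy
      omega
    have e4 : ∀ n : ℕ, 2 * ∑ z ∈ range n, (z + 1) = n * (n + 1) := by
      intro n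
      induction n with
      | zero => simp
      | succ n ih => rw [sum_range_succ, mul_add, ih]; ring
    have e5 : ∀ n : ℕ, 2 * ∑ z ∈ range n, z + n = n * n := by
      intro n
      induction n with
      | zero => simp
      | succ n ih =>
        rw [sum_range_succ]
        nlinarith
    have f1 := e4 x
    have f2 := e4 a
    have f3 := e5 L.card
    rw [e2] at e1
    subst ha
    nlinarith

end Pool.JM
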