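import Pool.Agent.Work.MP_46fa68_99.Far5
import Pool.Agent.Work.MP_46fa68_99.Hook
import Pool.Agent.Work.MP_46fa68_11.Bridge

/-!
# MP_46fa68_co: the far rows, beads
-/

set_option autoImplicit false

open Finset

namespace Pool.JM

/-! ### hooks -/

theorem hk_le_far (B : Finset ℕ) (x : ℕ) :
    hk B x ≤ 14 / 5 * ((ln B x).factorial : ℝ) * (5 / 4) ^ bx B x := by
  unfold hk
  refine hook_le (L := B.filter (· < x)) (fun y hy => (mem_filter.1 hy).2) ?_ ?_
  · have := ln_add B x
    unfold blw at this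
    omega
  · have h1 := sum_blw (B.filter (· < x))
    have h2 : ∑ y ∈ B.filter (· < x), blw (B.filter (· < x)) y = ∑ y ∈ B.filter (· < x), blw B y :=
      sum_congr rfl fun y hy => blw_filter (mem_filter.1 hy).2.le
    have h3 : ∑ y ∈ B.filter (· < x), (ln B y + blw B y) = ∑ y ∈ B.filter (· < x), y :=
      sum_congr rfl fun y _ => ln_add B y
    rw [sum_add_distrib] at h3
    unfold bx
    omega

theorem five_four_pow {a : ℕ} (ha : 12 ≤ a) : (a : ℝ) + 1 ≤ (5 / 4) ^ a := by
  induction a, ha using Nat.le_induction with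
  | base => norm_num
  | succ a ha ih =>
    rw [pow_succ]
    have : (12 : ℝ) ≤ a := by exact_mod_cast ha
    push_cast
    nlinarith

theorem hk_le_ηs (hHC : LR.Stmt_HC) {B : Finset ℕ} {x s : ℕ} (hm : 17 ≤ ln B x + s) (hs : 4 ≤ s)
    (hb : bx B x ≤ 2 * s + 5) :
    hk B x ≤ ηs s * ((ln B x).factorial : ℝ) * (5 / 4) ^ bx B x := by
  have hfac : (0 : ℝ) < ((ln B x).factorial : ℝ) := by positivity
  have hpow : (0 : ℝ) < (5 / 4) ^ bx B x := by positivity
  have hc : ∀ γ : ℝ, 1 ≤ ln B x → 1 ≤ γ → (ln B x : ℝ) + 1 ≤ γ ^ ln B x →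
      hk B x ≤ ((ln B x).factorial : ℝ) * γ ^ bx B x := by
    intro γ h1 h2 h3
    have := (hHC B x γ (by rw [gp_eq]; exact h1) h2 (by rw [gp_eq]; exact h3)).1
    rwa [gp_eq, bx_eq, hk_eq'] at this
  rcases Nat.lt_or_ge s 7 with h6 | h6
  · rcases Nat.lt_or_ge (ln B x) 12 with h12 | h12
    · -- `s = 6`, `a = 11`
      have hs5 : s = 6 := by omega
      have ha : ln B x = 11 := by omega
      have h1 := hc (2507 / 2000) (by omega) (by norm_num) (by rw [ha]; norm_num)
      have h2 : (2507 / 2000 : ℝ) ^ bx B x ≤ 21 / 20 * (5 / 4) ^ bx B x := by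
        have e : (2507 / 2000 : ℝ) = (5 / 4) * (2507 / 2500) := by norm_num
        rw [e, mul_pow, mul_comm]
        refine mul_le_mul_of_nonneg_right ?_ hpow.le
        calc (2507 / 2500 : ℝ) ^ bx B x ≤ (2507 / 2500) ^ 17 :=
              pow_le_pow_right₀ (by norm_num) (by omega)
          _ ≤ 21 / 20 := by norm_num
      have h3 : ηs s = 21 / 20 := by
        unfold ηs
        rw [if_neg (by omega), if_pos hs5]
      rw [h3]
      calc hk B x ≤ ((ln B x).factorial : ℝ) * (2507 / 2000) ^ bx B x := h1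
        _ ≤ ((ln B x).factorial : ℝ) * (21 / 20 * (5 / 4) ^ bx B x) :=
            mul_le_mul_of_nonneg_left h2 hfac.le
        _ = _ := by ring
    · have h1 := hc (5 / 4) (by omega) (by norm_num) (five_four_pow h12)
      have h3 : 1 ≤ ηs s := by
        unfold ηs
        split_ifs <;> norm_num
      calc hk B x ≤ 1 * (((ln B x).factorial : ℝ) * (5 / 4) ^ bx B x) := by rw [one_mul]; exact h1
        _ ≤ ηs s * (((ln B x).factorial : ℝ) * (5 / 4) ^ bx B x) :=
            mul_le_mul_of_nonneg_right h3 (by positivity)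
        _ = _ := by ring
  · rw [ηs_big h6]
    exact hk_le_far B x

/-! ### rows -/

theorem etaR_eq {B : Finset ℕ} {x : ℕ} (hx : x ∈ B) : etaR B x = hk B x / da B x := by
  have h1 := ex_erase hx
  have h2 := ex_erase' hx
  rw [h1] at h2
  exact mul_left_cancel₀ (ex_pos B).ne' h2

theorem le_tb {B : Finset ℕ} {y : ℕ} (hy : y ∈ B) : y ≤ tb B := by
  unfold tb
  exact Finset.le_sup (f := id) hy

theorem da_ge_top {B : Finset ℕ} {x : ℕ} (hx : x ∈ B.erase (tb B)) :
    ((tb B : ℝ) - x) * ((upr B x - 1).factorial : ℝ) ≤ da B x := by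
  have hxB := mem_of_mem_erase hx
  have hne := ne_of_mem_erase hx
  have hlt : x < tb B := lt_of_le_of_ne (le_tb hxB) hne
  have hmem : tb B ∈ B.filter (x < ·) := mem_filter.2 ⟨tb_mem ⟨x, hxB⟩, hlt⟩
  unfold da
  rw [← mul_prod_erase _ _ hmem]
  have hpos : (0 : ℝ) < (tb B : ℝ) - x := by
    have : (x : ℝ) < tb B := by exact_mod_cast hlt
    linarith
  refine mul_le_mul_of_nonneg_left ?_ hpos.le
  set S := (B.filter (x < ·)).erase (tb B) with hS
  have hin : ∀ b ∈ S, x < b := fun b hb => (mem_filter.1 (mem_of_mem_erase hb)).2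
  have hinj : Set.InjOn (fun b => b - x) (S : Set ℕ) := by
    intro a ha b hb h
    have h1 := hin a (mem_coe.1 ha)
    have h2 := hin b (mem_coe.1 hb)
    have h' : a - x = b - x := h
    omega
  have h1 : ∏ b ∈ S, ((b : ℝ) - x) = ∏ z ∈ S.image (fun b => b - x), (z : ℝ) := by
    rw [prod_image hinj]
    refine prod_congr rfl fun b hb => ?_
    rw [Nat.cast_sub (hin b hb).le]
  have h2 : (S.image (fun b => b - x)).card = upr B x - 1 := by
    rw [card_image_of_injOn hinj, hS, card_erase_of_mem hmem]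
    rfl
  rw [h1, ← h2]
  refine fact_le_prod_pos _ fun z hz => ?_
  obtain ⟨b, hb, rfl⟩ := mem_image.1 hz
  have := hin b hb
  omega

theorem upr_pos {B : Finset ℕ} {x : ℕ} (hx : x ∈ B.erase (tb B)) : 1 ≤ upr B x := by
  have hxB := mem_of_mem_erase hx
  have hlt : x < tb B := lt_of_le_of_ne (le_tb hxB) (ne_of_mem_erase hx)
  unfold upr
  exact card_pos.2 ⟨tb B, mem_filter.2 ⟨tb_mem ⟨x, hxB⟩, hlt⟩⟩

/-- boxes: the rows above -/
theorem boxes_top {K N : ℕ} {B : Finset ℕ} (hB : B ∈ Lv K N) {x : ℕ} (hx : x ∈ B.erase (tb B)) :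
    bx B x + upr B x * ln B x + ln B (tb B) ≤ N := by
  have hxB := mem_of_mem_erase hx
  have hlt : x < tb B := lt_of_le_of_ne (le_tb hxB) (ne_of_mem_erase hx)
  have hmem : tb B ∈ B.filter (x < ·) := mem_filter.2 ⟨tb_mem ⟨x, hxB⟩, hlt⟩
  have h1 := boxes hB hxB
  rw [← add_sum_erase _ _ hmem] at h1
  have h2 : (upr B x - 1) * ln B x ≤ ∑ b ∈ (B.filter (x < ·)).erase (tb B), ln B b := by
    have h3 : ((B.filter (x < ·)).erase (tb B)).card = upr B x - 1 := by
      rw [card_erase_of_mem hmem]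
      rfl
    rw [← h3, ← smul_eq_mul, ← sum_const]
    exact sum_le_sum fun b hb => ln_mono hxB (mem_filter.1 (mem_of_mem_erase hb)).2.le
  have h4 := upr_pos hx
  obtain ⟨k, hk⟩ : ∃ k, upr B x = k + 1 := ⟨upr B x - 1, by omega⟩
  rw [hk] at h2 ⊢
  rw [Nat.add_sub_cancel] at h2
  have h5 : (k + 1) * ln B x = k * ln B x + ln B x := by ring
  omega

theorem bx_zero_of_ln {B : Finset ℕ} {x : ℕ} (hx : ln B x = 0) : bx B x = 0 := by
  unfold bx
  refine sum_eq_zero fun b hb => ?_
  have h1 := (mem_filter.1 hb).2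
  have h2 : x = blw B x := by
    have := ln_add B x
    omega
  -- all the positions below `x` are filled
  have h3 : B.filter (· < x) = range x := by
    refine eq_of_subset_of_card_le (fun y hy => mem_range.2 (mem_filter.1 hy).2) ?_
    rw [card_range]
    exact h2.le
  have h4 : B.filter (· < b) = range b := by
    ext y
    constructor
    · intro hy
      exact mem_range.2 (mem_filter.1 hy).2
    · intro hy
      have hy' := mem_range.1 hy
      have : y ∈ B.filter (· < x) := by rw [h3]; exact mem_range.2 (by omega)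
      exact mem_filter.2 ⟨(mem_filter.1 this).1, hy'⟩
  unfold ln blw
  rw [h4, card_range]
  omega

/-- the wall distance of a row -/
theorem wall_dist {M m : ℕ} {B : Finset ℕ} (hB : B ∈ Lv (M + 1) (m + (m - 3))) {x : ℕ}
    (hx : x ∈ B.erase (tb B)) {s v : ℕ} (hs : ln B x + s + 4 = m) (hv : upr B x = v + 1) :
    M + m - x = s + v + 5 ∧ x + (s + v + 5) = M + m := by
  have h1 := pos_eq hB (mem_of_mem_erase hx)
  omega

theorem top_pos {M m : ℕ} {B : Finset ℕ} (hB : B ∈ Lv (M + 1) (m + (m - 3))) {x : ℕ}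
    (hx : x ∈ B.erase (tb B)) : tb B = M + ln B (tb B) := by
  have h1 := (top_row hB (tb_mem ⟨x, mem_of_mem_erase hx⟩) (fun y hy => le_tb hy)).1
  omega

/-- **the bound of one row** -/
theorem row_raw (hHC : LR.Stmt_HC) {m M A : ℕ} (hm : 21 ≤ m) (hR : Stmt_ROWB m)
    {B : Finset ℕ} (hB : B ∈ Lv (M + 1) (m + (m - 3))) {x : ℕ}
    (hx : x ∈ B.erase (tb B)) {s v : ℕ} (hs : ln B x + s + 4 = m) (hv : upr B x = v + 1)
    (hs4 : 4 ≤ s) (hb : bx B x ≤ 2 * s + 5) {d : ℝ} (hd : d = (M : ℝ) + m - tb B) :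
    0 < (s : ℝ) + v + 5 - d ∧
    |Cr m A (M + m) B x| ≤ ηs s * (5 / 4) ^ bx B x * zq (ln B x) v s *
      SrP (ln B x + s + 4) (s + v + 5) |d - 1| |d| / ((s : ℝ) + v + 5 - d) := by
  obtain ⟨hw, hw'⟩ := wall_dist hB hx hs hv
  have hxB := mem_of_mem_erase hx
  have hlt : x < tb B := lt_of_le_of_ne (le_tb hxB) (ne_of_mem_erase hx)
  have hD : (tb B : ℝ) - x = (s : ℝ) + v + 5 - d := by
    have : (x : ℝ) + (s + v + 5) = M + m := by exact_mod_cast hw'
    rw [hd]
    linarith
  have hDpos : 0 < (s : ℝ) + v + 5 - d := by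
    rw [← hD]
    have : (x : ℝ) < tb B := by exact_mod_cast hlt
    linarith
  refine ⟨hDpos, ?_⟩
  have h1 := hR M A B hB x hx (by omega)
  rw [hw, ← hd] at h1
  have h2 := hk_le_ηs hHC (B := B) (x := x) (s := s) (by omega) hs4 hb
  have h3 := da_ge_top hx
  rw [hD, hv, Nat.add_sub_cancel] at h3
  have hη := ηs_pos s
  have hSrP := SrP_nonneg (m := m) (i := s + v + 5) (by omega) (by omega) (abs_nonneg (d - 1))
    (abs_nonneg d)
  have h4 := SrR_le (m := m) (i := s + v + 5) (by omega) d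
  have h5 : etaR B x ≤ ηs s * ((ln B x).factorial : ℝ) * (5 / 4) ^ bx B x /
      (((s : ℝ) + v + 5 - d) * (v.factorial : ℝ)) := by
    rw [etaR_eq hxB]
    exact div_le_div₀ (by positivity) h2 (by positivity) h3
  have h6 : 0 ≤ etaR B x := by
    rw [etaR_eq hxB]
    exact (div_pos (hk_pos B x) (da_pos B x)).le
  have h7 : BdR m (s + v + 5) d ≤ ((m + (s + v + 5) - 5).factorial : ℝ) /
    (((m - 4).factorial : ℝ) * (m.factorial : ℝ) * ((s + v + 5 - 1).factorial : ℝ)) *
      SrP m (s + v + 5) |d - 1| |d| := by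
    unfold BdR
    exact mul_le_mul_of_nonneg_left h4 (by positivity)
  have h8 : BdR m (s + v + 5) d * etaR B x ≤ ((m + (s + v + 5) - 5).factorial : ℝ) /
    (((m - 4).factorial : ℝ) * (m.factorial : ℝ) * ((s + v + 5 - 1).factorial : ℝ)) *
      SrP m (s + v + 5) |d - 1| |d| * (ηs s * ((ln B x).factorial : ℝ) * (5 / 4) ^ bx B x /
      (((s : ℝ) + v + 5 - d) * (v.factorial : ℝ))) := by
    refine (mul_le_mul_of_nonneg_right h7 h6).trans (mul_le_mul_of_nonneg_left h5 ?_)
    positivity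
  refine (h1.trans h8).trans (le_of_eq ?_)
  rw [hs, show m + (s + v + 5) - 5 = ln B x + 2 * s + v + 4 by omega,
    show m - 4 = ln B x + s by omega, show s + v + 5 - 1 = s + v + 4 by omega]
  unfold zq
  rw [hs]
  have f0 : (s : ℝ) + v + 5 - d ≠ 0 := hDpos.ne'
  field_simp

/-! ### the sum over the rows -/

theorem upr_lt {B : Finset ℕ} {x y : ℕ} (hy : y ∈ B) (h : x < y) : upr B y < upr B x := by
  unfold upr
  refine card_lt_card ⟨fun z hz => ?_, fun hsub => ?_⟩
  · obtain ⟨h1, h2⟩ := mem_filter.1 hz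
    exact mem_filter.2 ⟨h1, by omega⟩
  · have := (mem_filter.1 (hsub (mem_filter.2 ⟨hy, h⟩))).2
    omega

theorem sum_rows {B S : Finset ℕ} (hS : S ⊆ B.erase (tb B)) (F : ℕ → ℝ) (g : ℕ → ℝ)
    (hg : ∀ v, 0 ≤ g v) (hF : ∀ x ∈ S, F x ≤ g (upr B x - 1)) :
    ∑ x ∈ S, F x ≤ ∑ v ∈ range B.card, g v := by
  refine (sum_le_sum hF).trans ?_
  have hinj : Set.InjOn (fun x => upr B x - 1) (S : Set ℕ) := by
    intro x hx y hy h
    have hx' := hS (mem_coe.1 hx)
    have hy' := hS (mem_coe.1 hy)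
    have h1 := upr_pos hx'
    have h2 := upr_pos hy'
    have h3 : upr B x = upr B y := by
      have h' : upr B x - 1 = upr B y - 1 := h
      omega
    rcases lt_trichotomy x y with h4 | h4 | h4
    · have := upr_lt (mem_of_mem_erase hy') h4
      omega
    · exact h4
    · have := upr_lt (mem_of_mem_erase hx') h4
      omega
  rw [← sum_image (f := g) hinj]
  refine sum_le_sum_of_subset_of_nonneg ?_ fun v _ _ => hg v
  intro v hv
  obtain ⟨x, hx, rfl⟩ := mem_image.1 hv
  have hx' := hS hx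
  rw [mem_range]
  have h1 := blw_add_upr (mem_of_mem_erase hx')
  have h2 := upr_pos hx'
  show upr B x - 1 < B.card
  omega

end Pool.JM
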