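import Pool.Agent.Work.MP_46fa68_99.Far6

/-!
# MP_46fa68_co: the far rows, the final statements (`m ≥ 21`)

A row (bead `x`, not the top bead) is *far* if `m + 7 ≤ 3 (M + m - x)` or if it is a row `≥ 3`.

* `far_gen`: below the wall, the sum of `|Cr|` over any set of far rows is `≤ 1/12`; over rows `≥ 3`: `≤ 1/40`;
* `far_low`: if `M + m ≤ tb B + 3` and below the wall: `≤ 1 / (30 m)`;
* `far_bd`: beyond the wall: `≤ (1/250) (3/4)^j`; over rows `≥ 3`: `≤ (1/400) (3/4)^j`.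
-/

set_option autoImplicit false

open Finset

namespace Pool.JM

/-- far rows -/
def FarR (m M : ℕ) (B : Finset ℕ) (x : ℕ) : Prop := m + 7 ≤ 3 * (M + m - x) ∨ 2 ≤ upr B x

theorem far_params {M m : ℕ} (hm : 21 ≤ m) {B : Finset ℕ} (hB : B ∈ Lv (M + 1) (m + (m - 3))) {x : ℕ}
    (hx : x ∈ B.erase (tb B)) (hf : FarR m M B x) :
    ∃ s v : ℕ, ln B x + s + 4 = m ∧ upr B x = v + 1 ∧ 4 ≤ s ∧ (2 ≤ v → 8 ≤ s) ∧ (v = 0 → 5 ≤ s) ∧
      m ≤ 3 * s + 9 ∧
      bx B x + v * ln B x + ln B x + ln B (tb B) ≤ m + (m - 3) ∧ ln B x ≤ ln B (tb B) := by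
  have hxB := mem_of_mem_erase hx
  have h1 := boxes_top hB hx
  have h2 := ln_mono hxB (le_tb hxB)
  have h3 := upr_pos hx
  have h4 := pos_eq hB hxB
  obtain ⟨v, hv⟩ : ∃ v, upr B x = v + 1 := ⟨upr B x - 1, by omega⟩
  rw [hv, show (v + 1) * ln B x = v * ln B x + ln B x by ring] at h1
  rw [hv] at h4
  unfold FarR at hf
  rw [hv] at hf
  have h5 : 3 * ln B x ≤ 2 * m - 3 := by
    rcases Nat.eq_zero_or_pos v with rfl | hv0
    · rcases hf with hf | hf
      · omega
      · omega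
    · have : ln B x ≤ v * ln B x := Nat.le_mul_of_pos_left _ hv0
      omega
  have h6 : 2 ≤ v → 4 * ln B x ≤ 2 * m - 3 := by
    intro hv2
    have : 2 * ln B x ≤ v * ln B x := Nat.mul_le_mul_right _ hv2
    omega
  have h7 : v = 0 → 3 * ln B x ≤ 2 * m - 4 := by
    rintro rfl
    rcases hf with hf | hf
    · omega
    · omega
  refine ⟨m - 4 - ln B x, v, by omega, hv, by omega, fun hv2 => ?_, fun hv0 => ?_, by omega, by omega,
    h2⟩
  · have := h6 hv2
    omega
  · have := h7 hv0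
    omega

theorem sum_far {B S : Finset ℕ} (hS : S ⊆ B.erase (tb B)) (F : ℕ → ℝ) {t0 t1 t2 tz C : ℝ}
    (h0 : 0 ≤ t0) (h1 : 0 ≤ t1) (h2 : 0 ≤ t2) (hz : 0 ≤ tz)
    (hF : ∀ x ∈ S, F x ≤ gv t0 t1 t2 tz (upr B x - 1))
    (hC : t0 + t1 + 45 / 13 * t2 + 11 * tz ≤ C) : ∑ x ∈ S, F x ≤ C := by
  refine ((sum_rows hS F (gv t0 t1 t2 tz) ?_ hF).trans (sum_gv h0 h1 h2 hz _)).trans hC
  intro v
  unfold gv
  have : (0 : ℝ) ≤ if v = 0 then t0 else if v = 1 then t1 else t2 * (32 / 45) ^ (v - 2) := by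
    split_ifs
    · exact h0
    · exact h1
    · positivity
  have : 0 ≤ tz * (8 / 9) ^ (v - 2) := by positivity
  linarith

theorem gv_zero {t0 t1 t2 tz : ℝ} {v : ℕ} (hv : 1 ≤ v) : gv t0 t1 t2 tz v = gv 0 t1 t2 tz v := by
  have h : v ≠ 0 := by omega
  simp only [gv, if_neg h]

theorem gv_smul {t0 t1 t2 tz q : ℝ} (v : ℕ) :
    gv (t0 * q) (t1 * q) (t2 * q) (tz * q) v = gv t0 t1 t2 tz v * q := by
  unfold gv
  split_ifs <;> ring

theorem gv_mono {t0 t1 t2 tz t0' t1' t2' tz' : ℝ} (h0 : t0 ≤ t0') (h1 : t1 ≤ t1') (h2 : t2 ≤ t2')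
    (hz : tz ≤ tz') (v : ℕ) : gv t0 t1 t2 tz v ≤ gv t0' t1' t2' tz' v := by
  unfold gv
  have a : (0 : ℝ) ≤ (32 / 45) ^ (v - 2) := by positivity
  have b : (0 : ℝ) ≤ (8 / 9) ^ (v - 2) := by positivity
  have := mul_le_mul_of_nonneg_right h2 a
  have := mul_le_mul_of_nonneg_right hz b
  split_ifs <;> linarith

/-! ### below the wall -/

theorem row_gen (hHC : LR.Stmt_HC) {m M A : ℕ} (hm : 21 ≤ m) (hR : Stmt_ROWB m)
    {B : Finset ℕ} (hB : B ∈ Lv (M + 1) (m + (m - 3))) (hw : tb B < M + m) {x : ℕ}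
    (hx : x ∈ B.erase (tb B)) (hf : FarR m M B x) :
    |Cr m A (M + m) B x| ≤ gv (627 / 10000) (128 / 10000) (19 / 10000) (3 / 100000) (upr B x - 1) := by
  obtain ⟨s, v, hs, hv, hs4, hv7, hv5, hm3, hbox, hln⟩ := far_params hm hB hx hf
  have htop := top_pos hB hx
  have hb : bx B x + v * ln B x ≤ 2 * s + 5 := by omega
  obtain ⟨d, hd⟩ : ∃ d : ℝ, d = (M : ℝ) + m - tb B := ⟨_, rfl⟩
  have hb' : bx B x ≤ 2 * s + 5 := le_trans (Nat.le_add_right _ _) hb
  obtain ⟨hDpos, hraw⟩ := row_raw hHC hm hR hB (A := A) hx hs hv hs4 hb' hd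
  have hd1 : 1 ≤ d := by
    have : (tb B : ℝ) + 1 ≤ M + m := by exact_mod_cast hw
    rw [hd]
    linarith
  have hd2 : d ≤ (s : ℝ) + 4 := by
    have h1 : M + m ≤ tb B + (s + 4) := by omega
    have : (M : ℝ) + m ≤ tb B + (s + 4) := by exact_mod_cast h1
    rw [hd]
    linarith
  rw [hv, Nat.add_sub_cancel]
  have e1 : |d - 1| ≤ (s : ℝ) + 3 := by
    rw [abs_of_nonneg (by linarith)]
    linarith
  have e2 : |d| ≤ (s : ℝ) + 4 := by
    rw [abs_of_nonneg (by linarith)]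
    exact hd2
  have hs0 : (0 : ℝ) ≤ s := by positivity
  have hv0 : (0 : ℝ) ≤ v := by positivity
  have hη := ηs_pos s
  have hzq := zq_pos (ln B x) v s
  have h1 : ηs s * (5 / 4) ^ bx B x * zq (ln B x) v s *
      SrP (ln B x + s + 4) (s + v + 5) |d - 1| |d| / ((s : ℝ) + v + 5 - d) ≤
      ηs s * (5 / 4) ^ bx B x * zq (ln B x) v s *
      SrP (ln B x + s + 4) (s + v + 5) ((s : ℝ) + 3) ((s : ℝ) + 4) / (1 + v) := by
    have h2 := SrP_mono (m := ln B x + s + 4) (i := s + v + 5) (by omega) (by omega) e1 e2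
    have h3 := SrP_nonneg (m := ln B x + s + 4) (i := s + v + 5) (by omega) (by omega)
      (by linarith : (0 : ℝ) ≤ (s : ℝ) + 3) (by linarith : (0 : ℝ) ≤ (s : ℝ) + 4)
    refine div_le_div₀ (by positivity) ?_ (by positivity) (by linarith)
    exact mul_le_mul_of_nonneg_left h2 (by positivity)
  refine (hraw.trans h1).trans ?_
  refine row_mode (w0 := 2 * s + 5) (by omega) (fun h => (by omega : 7 ≤ 8).trans (hv7 h)) (by linarith) (by linarith) one_pos
    (fun _ => hb) (fun h => bx_zero_of_ln h) (by norm_num) (by norm_num) (by norm_num) (by norm_num)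
    ?_ ?_ ?_ ?_
  · intro h0 _
    rcases Nat.lt_or_ge s 16 with h | h
    · rw [show max 1 (17 - s) = 17 - s by omega]
      exact gen0 (hv5 h0) (by omega)
    · refine (gen_tail (v := 0) (by norm_num) h).trans ?_
      norm_num
  · intro _ _
    rcases Nat.lt_or_ge s 16 with h | h
    · rw [show max 1 (17 - s) = 17 - s by omega]
      exact gen1 hs4 (by omega)
    · refine (gen_tail (v := 1) (by norm_num) h).trans ?_
      norm_num
  · intro h2 _
    rcases Nat.lt_or_ge s 16 with h | h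
    · rw [show max 1 (17 - s) = 17 - s by omega]
      exact gen2 (hv7 h2) (by omega)
    · refine (gen_tail (v := 2) (by norm_num) h).trans ?_
      norm_num
  · intro h v' hv'
    exact gen_zero hv' h

/-- **far rows below the wall** -/
theorem far_gen (hHC : LR.Stmt_HC) {m M A : ℕ} (hm : 21 ≤ m) (hR : Stmt_ROWB m)
    {B : Finset ℕ} (hB : B ∈ Lv (M + 1) (m + (m - 3))) (hw : tb B < M + m) {S : Finset ℕ}
    (hS : S ⊆ B.erase (tb B)) (hf : ∀ x ∈ S, FarR m M B x) :
    ∑ x ∈ S, |Cr m A (M + m) B x| ≤ 1 / 12 :=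
  sum_far hS _ (t0 := 627 / 10000) (t1 := 128 / 10000) (t2 := 19 / 10000) (tz := 3 / 100000)
    (by norm_num) (by norm_num) (by norm_num) (by norm_num)
    (fun x hx => row_gen hHC hm hR hB hw (hS hx) (hf x hx)) (by norm_num)

/-- **rows `≥ 3` below the wall** -/
theorem far_gen3 (hHC : LR.Stmt_HC) {m M A : ℕ} (hm : 21 ≤ m) (hR : Stmt_ROWB m)
    {B : Finset ℕ} (hB : B ∈ Lv (M + 1) (m + (m - 3))) (hw : tb B < M + m) {S : Finset ℕ}
    (hS : S ⊆ B.erase (tb B)) (hf : ∀ x ∈ S, 2 ≤ upr B x) :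
    ∑ x ∈ S, |Cr m A (M + m) B x| ≤ 1 / 40 :=
  sum_far hS _ (t0 := 0) (t1 := 128 / 10000) (t2 := 19 / 10000) (tz := 3 / 100000)
    le_rfl (by norm_num) (by norm_num) (by norm_num)
    (fun x hx => (row_gen hHC hm hR hB hw (hS hx) (Or.inr (hf x hx))).trans
      (gv_zero (by have := hf x hx; omega)).le) (by norm_num)

theorem row_low (hHC : LR.Stmt_HC) {m M A : ℕ} (hm : 21 ≤ m) (hR : Stmt_ROWB m)
    {B : Finset ℕ} (hB : B ∈ Lv (M + 1) (m + (m - 3))) (hw : tb B < M + m) (hw3 : M + m ≤ tb B + 3)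
    {x : ℕ} (hx : x ∈ B.erase (tb B)) (hf : FarR m M B x) :
    |Cr m A (M + m) B x| ≤ gv (198 / 10000 * (1 / m)) (99 / 10000 * (1 / m)) (2 / 10000 * (1 / m))
      (2 / 100000 * (1 / m)) (upr B x - 1) := by
  obtain ⟨s, v, hs, hv, hs4, hv7, hv5, hm3, hbox, hln⟩ := far_params hm hB hx hf
  have htop := top_pos hB hx
  have hb : bx B x + v * ln B x ≤ s + 4 := by omega
  obtain ⟨d, hd⟩ : ∃ d : ℝ, d = (M : ℝ) + m - tb B := ⟨_, rfl⟩
  have hb' : bx B x ≤ 2 * s + 5 := le_trans (Nat.le_add_right _ _) (hb.trans (by omega))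
  obtain ⟨hDpos, hraw⟩ := row_raw hHC hm hR hB (A := A) hx hs hv hs4 hb' hd
  have hd1 : 1 ≤ d := by
    have : (tb B : ℝ) + 1 ≤ M + m := by exact_mod_cast hw
    rw [hd]
    linarith
  have hd2 : d ≤ 3 := by
    have : (M : ℝ) + m ≤ tb B + 3 := by exact_mod_cast hw3
    rw [hd]
    linarith
  rw [hv, Nat.add_sub_cancel]
  have e1 : |d - 1| ≤ 2 := by
    rw [abs_of_nonneg (by linarith)]
    linarith
  have e2 : |d| ≤ 3 := by
    rw [abs_of_nonneg (by linarith)]
    exact hd2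
  have hs0 : (0 : ℝ) ≤ s := by positivity
  have hv0 : (0 : ℝ) ≤ v := by positivity
  have hη := ηs_pos s
  have hzq := zq_pos (ln B x) v s
  have h1 : ηs s * (5 / 4) ^ bx B x * zq (ln B x) v s *
      SrP (ln B x + s + 4) (s + v + 5) |d - 1| |d| / ((s : ℝ) + v + 5 - d) ≤
      ηs s * (5 / 4) ^ bx B x * zq (ln B x) v s *
      SrP (ln B x + s + 4) (s + v + 5) 2 3 / ((s : ℝ) + 2 + v) := by
    have h2 := SrP_mono (m := ln B x + s + 4) (i := s + v + 5) (by omega) (by omega) e1 e2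
    have h3 := SrP_nonneg (m := ln B x + s + 4) (i := s + v + 5) (by omega) (by omega)
      (by norm_num : (0 : ℝ) ≤ 2) (by norm_num : (0 : ℝ) ≤ 3)
    refine div_le_div₀ (by positivity) ?_ (by positivity) (by linarith)
    exact mul_le_mul_of_nonneg_left h2 (by positivity)
  have hm0 : (0 : ℝ) < m := by
    have : (20 : ℝ) ≤ m := by exact_mod_cast (by omega : 20 ≤ m)
    linarith
  have h3s : 1 / (3 * (s : ℝ) + 9) ≤ 1 / m := by
    refine one_div_le_one_div_of_le hm0 ?_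
    exact_mod_cast hm3
  have hq : 0 ≤ 1 / (3 * (s : ℝ) + 9) := by positivity
  refine (hraw.trans h1).trans ?_
  refine (row_mode (w0 := s + 4) (t0 := 198 / 10000 * (1 / (3 * (s : ℝ) + 9)))
    (t1 := 99 / 10000 * (1 / (3 * (s : ℝ) + 9))) (t2 := 2 / 10000 * (1 / (3 * (s : ℝ) + 9)))
    (tz := 2 / 100000 * (1 / (3 * (s : ℝ) + 9))) (by omega) (fun h => (by omega : 7 ≤ 8).trans (hv7 h)) (by norm_num) (by norm_num)
    (by linarith : (0 : ℝ) < (s : ℝ) + 2)
    (fun _ => hb) (fun h => bx_zero_of_ln h) (by positivity) (by positivity) (by positivity)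
    (by positivity) ?_ ?_ ?_ ?_).trans
    (gv_mono (by linarith) (by linarith) (by linarith) (by linarith) v)
  · intro h0 _
    rw [mul_one_div]
    rcases Nat.lt_or_ge s 16 with h | h
    · rw [show max 1 (17 - s) = 17 - s by omega]
      exact low0 (hv5 h0) (by omega)
    · refine (low_tail (v := 0) (by norm_num) h).trans ?_
      exact div_le_div_of_nonneg_right (by norm_num) (by positivity)
  · intro _ _
    rw [mul_one_div]
    rcases Nat.lt_or_ge s 16 with h | h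
    · rw [show max 1 (17 - s) = 17 - s by omega]
      exact low1 hs4 (by omega)
    · refine (low_tail (v := 1) (by norm_num) h).trans ?_
      exact div_le_div_of_nonneg_right (by norm_num) (by positivity)
  · intro h2 _
    rw [mul_one_div]
    rcases Nat.lt_or_ge s 16 with h | h
    · rw [show max 1 (17 - s) = 17 - s by omega]
      exact low2 (hv7 h2) (by omega)
    · refine (low_tail (v := 2) (by norm_num) h).trans ?_
      exact div_le_div_of_nonneg_right (by norm_num) (by positivity)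
  · intro h v' hv'
    rw [mul_one_div]
    exact low_zero hv' h

/-- **far rows in the layers 1, 2, 3** -/
theorem far_low (hHC : LR.Stmt_HC) {m M A : ℕ} (hm : 21 ≤ m) (hR : Stmt_ROWB m)
    {B : Finset ℕ} (hB : B ∈ Lv (M + 1) (m + (m - 3))) (hw : tb B < M + m) (hw3 : M + m ≤ tb B + 3)
    {S : Finset ℕ} (hS : S ⊆ B.erase (tb B)) (hf : ∀ x ∈ S, FarR m M B x) :
    ∑ x ∈ S, |Cr m A (M + m) B x| ≤ 1 / (30 * m) := by
  have hm0 : (0 : ℝ) < m := by
    have : (20 : ℝ) ≤ m := by exact_mod_cast (by omega : 20 ≤ m)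
    linarith
  have hq : (0 : ℝ) < 1 / m := by positivity
  refine sum_far hS _ (t0 := 198 / 10000 * (1 / m)) (t1 := 99 / 10000 * (1 / m))
    (t2 := 2 / 10000 * (1 / m)) (tz := 2 / 100000 * (1 / m))
    (by positivity) (by positivity) (by positivity) (by positivity)
    (fun x hx => row_low hHC hm hR hB hw hw3 (hS hx) (hf x hx)) ?_
  rw [show (1 : ℝ) / (30 * m) = 1 / 30 * (1 / m) by field_simp]
  linarith

/-! ### beyond the wall -/

theorem pow_aux1 (e : ℕ) : (e : ℝ) + 1 ≤ 205 / 100 * (5 / 4) ^ e := by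
  rcases Nat.lt_or_ge e 4 with h | h
  · interval_cases e <;> norm_num
  · induction e, h using Nat.le_induction with
    | base => norm_num
    | succ e he ih =>
      rw [pow_succ]
      have : (4 : ℝ) ≤ e := by exact_mod_cast he
      push_cast
      linarith

theorem pow_aux2 (e : ℕ) : (e : ℝ) ≤ 164 / 100 * (5 / 4) ^ e := by
  rcases Nat.lt_or_ge e 5 with h | h
  · interval_cases e <;> norm_num
  · induction e, h using Nat.le_induction with
    | base => norm_num
    | succ e he ih =>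
      rw [pow_succ]
      have : (5 : ℝ) ≤ e := by exact_mod_cast he
      push_cast
      linarith

theorem bdy_zero' {v s : ℕ} (hv : v ≤ 2) (hs : 16 ≤ s) :
    14 / 5 * Tb 0 v s ((s : ℝ) + 3) ((s : ℝ) + 4) ((s : ℝ) + 5) ≤ 13 / 100000 * (3 / 4) ^ (s + 1) := by
  have hs0 : (16 : ℝ) ≤ s := by exact_mod_cast hs
  have hv0 : (0 : ℝ) ≤ v := by positivity
  have h1 := Tb_tail (a := 0) (v := v) (s := s) (e1 := (s : ℝ) + 3) (e := (s : ℝ) + 4)
    (δ := (s : ℝ) + 5) (by norm_num) (by omega) hv (by linarith) (by linarith) (by linarith)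
  have h2 := Xz_zero hv (by omega : 15 ≤ s)
  have h3 := zf_pos 0 v s
  have h6 := two_pow_le (q := 2 / 3) (by norm_num) (by norm_num) (by omega : 15 ≤ s)
  have h7 : (0 : ℝ) < 2 ^ s := by positivity
  have h9' : (0 : ℝ) < (3 / 4) ^ s := by positivity
  have h8 : Tb 0 v s ((s : ℝ) + 3) ((s : ℝ) + 4) ((s : ℝ) + 5) ≤ 16.3 * zf 0 v s := by
    refine h1.trans ?_
    rw [div_le_iff₀ (by positivity)]
    nlinarith [mul_nonneg h3.le hv0]
  have h5 : (1 : ℝ) = (2 / 3) ^ s * 2 ^ s * (3 / 4) ^ s := by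
    rw [← mul_pow, ← mul_pow]
    norm_num
  have h10 : zf 0 v s ≤ (2 / 3) ^ 15 * (176 / 10000 / 20) * (3 / 4) ^ s := by
    calc zf 0 v s = zf 0 v s * 1 := (mul_one _).symm
      _ = ((2 / 3) ^ s * (zf 0 v s * 2 ^ s)) * (3 / 4) ^ s := by
          rw [h5]
          ring
      _ ≤ ((2 / 3) ^ 15 * (176 / 10000 / 20)) * (3 / 4) ^ s := by
          refine mul_le_mul_of_nonneg_right ?_ h9'.le
          refine mul_le_mul h6 ?_ (by positivity) (by positivity)
          rw [le_div_iff₀ (by norm_num)]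
          refine le_trans ?_ h2
          exact mul_le_mul_of_nonneg_left (by linarith) (by positivity)
  rw [pow_succ (3 / 4 : ℝ) s]
  norm_num at h10
  nlinarith

theorem row_bd (hHC : LR.Stmt_HC) {m M A : ℕ} (hm : 21 ≤ m) (hR : Stmt_ROWB m)
    {B : Finset ℕ} (hB : B ∈ Lv (M + 1) (m + (m - 3))) (hw : M + m ≤ tb B) {x : ℕ}
    (hx : x ∈ B.erase (tb B)) (hf : FarR m M B x) {s : ℕ} (hs : ln B x + s + 4 = m) :
    |Cr m A (M + m) B x| ≤ gv (13 / 10000 * (3 / 4) ^ (s + 1)) (55 / 100000 * (3 / 4) ^ (s + 1))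
      (7 / 100000 * (3 / 4) ^ (s + 1)) (13 / 100000 * (3 / 4) ^ (s + 1)) (upr B x - 1) := by
  obtain ⟨s', v, hs', hv, hs4, hv7, hv5, hm3, hbox, hln⟩ := far_params hm hB hx hf
  obtain rfl : s = s' := by omega
  have htop := top_pos hB hx
  obtain ⟨e', he'⟩ : ∃ e', ln B (tb B) = m + e' := ⟨ln B (tb B) - m, by omega⟩
  have hb : bx B x + e' + v * ln B x ≤ s + 1 := by omega
  obtain ⟨d, hd⟩ : ∃ d : ℝ, d = (M : ℝ) + m - tb B := ⟨_, rfl⟩
  have hb' : bx B x ≤ 2 * s + 5 := by omega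
  obtain ⟨hDpos, hraw⟩ := row_raw hHC hm hR hB (A := A) hx hs hv hs4 hb' hd
  have hde : d = -(e' : ℝ) := by
    have : (tb B : ℝ) = M + (m + e') := by
      rw [htop, he']
      push_cast
      ring
    rw [hd, this]
    ring
  rw [hv, Nat.add_sub_cancel]
  have he0 : (0 : ℝ) ≤ e' := by positivity
  have e1 : |d - 1| = (e' : ℝ) + 1 := by
    rw [hde, abs_of_nonpos (by linarith)]
    ring
  have e2 : |d| = (e' : ℝ) := by
    rw [hde, abs_neg, abs_of_nonneg he0]
  rw [e1, e2, hde] at hraw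
  have hs0 : (0 : ℝ) ≤ s := by positivity
  have hv0 : (0 : ℝ) ≤ v := by positivity
  have hη := ηs_pos s
  have hzq := zq_pos (ln B x) v s
  have hq : (0 : ℝ) < (3 / 4) ^ (s + 1) := by positivity
  rcases Nat.eq_zero_or_pos (ln B x) with ha | ha
  · -- empty rows
    have hes : (e' : ℝ) ≤ s + 1 := by
      have : e' ≤ s + 1 := by omega
      exact_mod_cast this
    have h1 : ηs s * (5 / 4) ^ bx B x * zq (ln B x) v s *
        SrP (ln B x + s + 4) (s + v + 5) ((e' : ℝ) + 1) (e' : ℝ) / ((s : ℝ) + v + 5 - -(e' : ℝ)) ≤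
        ηs s * (5 / 4) ^ bx B x * zq (ln B x) v s *
        SrP (ln B x + s + 4) (s + v + 5) ((s : ℝ) + 3) ((s : ℝ) + 4) / ((s : ℝ) + 5 + v) := by
      have h2 := SrP_mono (m := ln B x + s + 4) (i := s + v + 5) (by omega) (by omega)
        (by linarith : (e' : ℝ) + 1 ≤ (s : ℝ) + 3) (by linarith : (e' : ℝ) ≤ (s : ℝ) + 4)
      have h3 := SrP_nonneg (m := ln B x + s + 4) (i := s + v + 5) (by omega) (by omega)
        (by linarith : (0 : ℝ) ≤ (s : ℝ) + 3) (by linarith : (0 : ℝ) ≤ (s : ℝ) + 4)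
      refine div_le_div₀ (by positivity) ?_ (by positivity) (by linarith)
      exact mul_le_mul_of_nonneg_left h2 (by positivity)
    refine (hraw.trans h1).trans ?_
    refine row_mode (w0 := 0) (by omega) (fun h => (by omega : 7 ≤ 8).trans (hv7 h)) (by linarith) (by linarith)
      (by linarith : (0 : ℝ) < (s : ℝ) + 5)
      (fun h => by omega) (fun h => bx_zero_of_ln h) (by positivity) (by positivity) (by positivity)
      (by positivity) (fun _ h => by omega) (fun _ h => by omega) (fun _ h => by omega) ?_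
    intro h v' hv'
    exact bdy_zero' hv' h
  · have h1 : ηs s * (5 / 4) ^ bx B x * zq (ln B x) v s *
        SrP (ln B x + s + 4) (s + v + 5) ((e' : ℝ) + 1) (e' : ℝ) / ((s : ℝ) + v + 5 - -(e' : ℝ)) ≤
        ηs s * (5 / 4) ^ (bx B x + e') * zq (ln B x) v s *
        SrP (ln B x + s + 4) (s + v + 5) (205 / 100) (164 / 100) / ((s : ℝ) + 5 + v) := by
      have h3 := SrP_nonneg (m := ln B x + s + 4) (i := s + v + 5) (by omega) (by omega)
        (by norm_num : (0 : ℝ) ≤ 205 / 100) (by norm_num : (0 : ℝ) ≤ 164 / 100)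
      have h4 : SrP (ln B x + s + 4) (s + v + 5) ((e' : ℝ) + 1) (e' : ℝ) ≤
          (5 / 4) ^ e' * SrP (ln B x + s + 4) (s + v + 5) (205 / 100) (164 / 100) := by
        unfold SrP
        have p1 := mul_le_mul_of_nonneg_left (pow_aux1 e') (k1R_nonneg (m := ln B x + s + 4) (by omega))
        have p2 := mul_le_mul_of_nonneg_left (pow_aux2 e')
          (k2R_nonneg (m := ln B x + s + 4) (i := s + v + 5) (by omega) (by omega))
        have p3 := k0R_nonneg (m := ln B x + s + 4) (i := s + v + 5) (by omega) (by omega)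
        have p4 : (1 : ℝ) ≤ (5 / 4) ^ e' := one_le_pow₀ (by norm_num)
        have p5 := mul_le_mul_of_nonneg_left p4 p3
        nlinarith
      refine div_le_div₀ (by positivity) ?_ (by positivity) (by linarith)
      calc ηs s * (5 / 4) ^ bx B x * zq (ln B x) v s *
            SrP (ln B x + s + 4) (s + v + 5) ((e' : ℝ) + 1) (e' : ℝ)
          ≤ ηs s * (5 / 4) ^ bx B x * zq (ln B x) v s *
            ((5 / 4) ^ e' * SrP (ln B x + s + 4) (s + v + 5) (205 / 100) (164 / 100)) :=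
            mul_le_mul_of_nonneg_left h4 (by positivity)
        _ = _ := by
            rw [pow_add]
            ring
    refine (hraw.trans h1).trans ?_
    refine row_mode (w0 := s + 1) (by omega) (fun h => (by omega : 7 ≤ 8).trans (hv7 h)) (by norm_num) (by norm_num)
      (by linarith : (0 : ℝ) < (s : ℝ) + 5)
      (fun _ => hb) (fun h => by omega) (by positivity) (by positivity) (by positivity)
      (by positivity) ?_ ?_ ?_ (fun h v' hv' => ?_)
    · intro h0 _
      rcases Nat.lt_or_ge s 16 with h | h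
      · rw [show max 1 (17 - s) = 17 - s by omega]
        exact bdy0 (hv5 h0) (by omega)
      · refine (bdy_tail (v := 0) (by norm_num) h).trans ?_
        linarith
    · intro _ _
      rcases Nat.lt_or_ge s 16 with h | h
      · rw [show max 1 (17 - s) = 17 - s by omega]
        exact bdy1 hs4 (by omega)
      · refine (bdy_tail (v := 1) (by norm_num) h).trans ?_
        linarith
    · intro h2 _
      rcases Nat.lt_or_ge s 16 with h | h
      · rw [show max 1 (17 - s) = 17 - s by omega]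
        exact bdy2 (hv7 h2) (by omega)
      · exact bdy_tail (v := 2) (by norm_num) h
    · refine (bdy_zero hv' h).trans ?_
      linarith

/-- **far rows beyond the wall** -/
theorem far_bd (hHC : LR.Stmt_HC) {m M A : ℕ} (hm : 21 ≤ m) (hR : Stmt_ROWB m)
    {B : Finset ℕ} (hB : B ∈ Lv (M + 1) (m + (m - 3))) (hw : M + m ≤ tb B) {S : Finset ℕ}
    (hS : S ⊆ B.erase (tb B)) (hf : ∀ x ∈ S, FarR m M B x) {j : ℕ}
    (hj : ∀ x ∈ S, ln B x + 3 + j ≤ m) :
    ∑ x ∈ S, |Cr m A (M + m) B x| ≤ 1 / 250 * (3 / 4) ^ j := by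
  have hq : (0 : ℝ) < (3 / 4) ^ j := by positivity
  refine sum_far hS _ (t0 := 13 / 10000 * (3 / 4) ^ j) (t1 := 55 / 100000 * (3 / 4) ^ j)
    (t2 := 7 / 100000 * (3 / 4) ^ j) (tz := 13 / 100000 * (3 / 4) ^ j)
    (by positivity) (by positivity) (by positivity) (by positivity) (fun x hx => ?_) ?_
  · obtain ⟨s, v, hs, -, -⟩ := far_params hm hB (hS hx) (hf x hx)
    have h1 := row_bd hHC hm hR hB hw (A := A) (hS hx) (hf x hx) hs
    have h2 : (3 / 4 : ℝ) ^ (s + 1) ≤ (3 / 4) ^ j :=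
      pow_le_pow_of_le_one (by norm_num) (by norm_num) (by have := hj x hx; omega)
    exact h1.trans (gv_mono (by linarith) (by linarith) (by linarith) (by linarith) _)
  · linarith

/-- **rows `≥ 3` beyond the wall** -/
theorem far_bd3 (hHC : LR.Stmt_HC) {m M A : ℕ} (hm : 21 ≤ m) (hR : Stmt_ROWB m)
    {B : Finset ℕ} (hB : B ∈ Lv (M + 1) (m + (m - 3))) (hw : M + m ≤ tb B) {S : Finset ℕ}
    (hS : S ⊆ B.erase (tb B)) (hf : ∀ x ∈ S, 2 ≤ upr B x) {j : ℕ}
    (hj : ∀ x ∈ S, ln B x + 3 + j ≤ m) :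
    ∑ x ∈ S, |Cr m A (M + m) B x| ≤ 1 / 400 * (3 / 4) ^ j := by
  have hq : (0 : ℝ) < (3 / 4) ^ j := by positivity
  refine sum_far hS _ (t0 := 0) (t1 := 55 / 100000 * (3 / 4) ^ j)
    (t2 := 7 / 100000 * (3 / 4) ^ j) (tz := 13 / 100000 * (3 / 4) ^ j)
    le_rfl (by positivity) (by positivity) (by positivity) (fun x hx => ?_) ?_
  · have hfx : FarR m M B x := Or.inr (hf x hx)
    obtain ⟨s, v, hs, -, -⟩ := far_params hm hB (hS hx) hfx
    have h1 := row_bd hHC hm hR hB hw (A := A) (hS hx) hfx hs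
    have h2 : (3 / 4 : ℝ) ^ (s + 1) ≤ (3 / 4) ^ j :=
      pow_le_pow_of_le_one (by norm_num) (by norm_num) (by have := hj x hx; omega)
    rw [gv_zero (by have := hf x hx; omega)] at h1
    exact h1.trans (gv_mono le_rfl (by linarith) (by linarith) (by linarith) _)
  · linarith

end Pool.JM
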