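import Pool.Agent.Work.MP_46fa68_99.Far7
import Pool.Agent.Work.MP_46fa68_h5.Row
import Pool.Agent.Work.MP_46fa68_kr.HC

/-!
# MP_46fa68_co: the far rows, unconditional (`m ≥ 21`)
-/

set_option autoImplicit false

open Finset

namespace Pool.JM

variable {m M A : ℕ} {B S : Finset ℕ}

/-- **far rows below the wall** -/
theorem FAR_gen (hm : 21 ≤ m) (hB : B ∈ Lv (M + 1) (m + (m - 3))) (hw : tb B < M + m)
    (hS : S ⊆ B.erase (tb B)) (hf : ∀ x ∈ S, FarR m M B x) :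
    ∑ x ∈ S, |Cr m A (M + m) B x| ≤ 1 / 12 :=
  far_gen LR.blk_HC hm (ROWB (by omega)) hB hw hS hf

/-- **rows `≥ 3` below the wall** -/
theorem FAR_gen3 (hm : 21 ≤ m) (hB : B ∈ Lv (M + 1) (m + (m - 3))) (hw : tb B < M + m)
    (hS : S ⊆ B.erase (tb B)) (hf : ∀ x ∈ S, 2 ≤ upr B x) :
    ∑ x ∈ S, |Cr m A (M + m) B x| ≤ 1 / 40 :=
  far_gen3 LR.blk_HC hm (ROWB (by omega)) hB hw hS hf

/-- **far rows in the layers 1, 2, 3** -/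
theorem FAR_low (hm : 21 ≤ m) (hB : B ∈ Lv (M + 1) (m + (m - 3))) (hw : tb B < M + m)
    (hw3 : M + m ≤ tb B + 3) (hS : S ⊆ B.erase (tb B)) (hf : ∀ x ∈ S, FarR m M B x) :
    ∑ x ∈ S, |Cr m A (M + m) B x| ≤ 1 / (30 * m) :=
  far_low LR.blk_HC hm (ROWB (by omega)) hB hw hw3 hS hf

/-- **far rows beyond the wall** -/
theorem FAR_bd (hm : 21 ≤ m) (hB : B ∈ Lv (M + 1) (m + (m - 3))) (hw : M + m ≤ tb B)
    (hS : S ⊆ B.erase (tb B)) (hf : ∀ x ∈ S, FarR m M B x) {j : ℕ}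
    (hj : ∀ x ∈ S, ln B x + 3 + j ≤ m) :
    ∑ x ∈ S, |Cr m A (M + m) B x| ≤ 1 / 250 * (3 / 4) ^ j :=
  far_bd LR.blk_HC hm (ROWB (by omega)) hB hw hS hf hj

/-- **rows `≥ 3` beyond the wall** -/
theorem FAR_bd3 (hm : 21 ≤ m) (hB : B ∈ Lv (M + 1) (m + (m - 3))) (hw : M + m ≤ tb B)
    (hS : S ⊆ B.erase (tb B)) (hf : ∀ x ∈ S, 2 ≤ upr B x) {j : ℕ}
    (hj : ∀ x ∈ S, ln B x + 3 + j ≤ m) :
    ∑ x ∈ S, |Cr m A (M + m) B x| ≤ 1 / 400 * (3 / 4) ^ j :=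
  far_bd3 LR.blk_HC hm (ROWB (by omega)) hB hw hS hf hj

/-- rows `≥ 3` beyond the wall have length `≤ (m - 3)/2`, so that their sum is `≤ 1/5000` -/
theorem FAR_bd3' (hm : 21 ≤ m) (hB : B ∈ Lv (M + 1) (m + (m - 3))) (hw : M + m ≤ tb B)
    (hS : S ⊆ B.erase (tb B)) (hf : ∀ x ∈ S, 2 ≤ upr B x) :
    ∑ x ∈ S, |Cr m A (M + m) B x| ≤ 1 / 5000 := by
  refine (FAR_bd3 hm hB hw hS hf (j := 9) fun x hx => ?_).trans (by norm_num)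
  have h1 := boxes_top hB (hS hx)
  have h2 := top_pos hB (hS hx)
  have h3 : 2 * ln B x ≤ upr B x * ln B x := Nat.mul_le_mul_right _ (hf x hx)
  omega

end Pool.JM
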